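import Pool.Agent.TH603.Sur.Main
import Pool.Agent.H932R5.Points

/-! Exact postulation of `D t ^ 2` general fat points of one multiplicity. -/

namespace Pool.Agent.TH603.Sur

open Finset Pool.Agent.TH176.Nag Pool.Agent.H932R3

/-- the dimension of the space of forms in three variables -/
theorem finrank_forms {K : Type*} [Field K] (d : ℕ) :
    Module.finrank K ↥(MvPolynomial.homogeneousSubmodule (Fin 3) K d) = (d + 2).choose 2 := by
  obtain ⟨a, h1, _, h3⟩ := Pool.Agent.H932R5.finrank_aux (E := 1) (K := K) d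
    (fun i : Fin 0 => i.elim0) (fun i : Fin 0 => i.elim0)
  rw [Finset.univ_eq_empty, Finset.sum_empty] at h1
  have h4 : Pool.Agent.H932R5.Vd (E := 1) (K := K) d (fun i : Fin 0 => i.elim0)
      (fun i : Fin 0 => i.elim0) = MvPolynomial.homogeneousSubmodule (Fin 3) K d := by
    refine le_antisymm inf_le_left (le_inf le_rfl fun x _ => ?_)
    rw [Submodule.restrictScalars_mem, Ideal.mem_iInf]
    exact fun i => i.elim0
  rw [h4] at h3
  have h5 : (d + 1 + 1).choose (1 + 1) = (d + 2).choose 2 := rfl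
  have h6 : a = 0 := Nat.le_zero.1 h1
  rw [h6, zero_add, h5] at h3
  exact h3

theorem uni_cond {n m d : ℕ} (hn : 1 ≤ n) (hd : (d : ℝ) < √(n : ℝ) * m ∨ √(n : ℝ) * (m + 1) < (d : ℝ) + 3) :
    (√(n : ℝ) * d < ∑ _i : Fin n, (m : ℝ) ∨
      ∃ b : ℕ, (∀ _i : Fin n, m ≤ b + 1) ∧
        (n : ℝ) + ((∑ _i : Fin n, max m b : ℕ) : ℝ) < √(n : ℝ) * (d + 3)) := by
  have hn' : (1 : ℝ) ≤ n := by exact_mod_cast hn
  have hs : 0 < √(n : ℝ) := Real.sqrt_pos.2 (by linarith)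
  obtain ⟨s, hsdef⟩ : ∃ s, s = √(n : ℝ) := ⟨_, rfl⟩
  have hs2 : s * s = n := by rw [hsdef]; exact Real.mul_self_sqrt (by linarith)
  rw [← hsdef] at hs hd ⊢
  rcases hd with hd | hd
  · left
    rw [Finset.sum_const, Finset.card_univ, Fintype.card_fin, nsmul_eq_mul, ← hs2, mul_assoc]
    exact mul_lt_mul_of_pos_left hd hs
  · right
    refine ⟨m, fun _ => Nat.le_succ _, ?_⟩
    simp only [max_self, Finset.sum_const, Finset.card_univ, Fintype.card_fin, smul_eq_mul]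
    rw [Nat.cast_mul, ← hs2]
    have h2 := mul_lt_mul_of_pos_left hd hs
    linarith

/-- **Exact postulation of `D t ^ 2` general fat points of one multiplicity.** -/
theorem expDim_uni {D : ℕ} (hD : 1 ≤ D) : ∃ t0 : ℕ, 1 ≤ t0 ∧ ∀ t : ℕ, t0 ≤ t →
    ∀ m : ℕ, ∃ F : MvPolynomial (Fin (D * t ^ 2) × Fin 2) ℚ, F ≠ 0 ∧
      ∀ {L : Type} [Field L] [CharZero L] (P : Fin (D * t ^ 2) → Fin 2 → L),
        MvPolynomial.aeval (fun ij : Fin (D * t ^ 2) × Fin 2 => P ij.1 ij.2) F ≠ 0 →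
        ∀ d : ℕ, ((d : ℝ) < √((D * t ^ 2 : ℕ) : ℝ) * m ∨
            √((D * t ^ 2 : ℕ) : ℝ) * (m + 1) < (d : ℝ) + 3) →
          ExpDim L (fun _ => m) P d := by
  obtain ⟨t0, ht0, h⟩ := expDim_cls hD
  refine ⟨t0, ht0, fun t ht m => ?_⟩
  obtain ⟨F, hF, hF'⟩ := h t ht (fun _ => m)
  refine ⟨F, hF, fun {L} _ _ P hP d hd => hF' P hP d ?_⟩
  have hn : 1 ≤ D * t ^ 2 := by
    have h1 : 1 ≤ t := ht0.trans ht
    exact Nat.succ_le_of_lt (by positivity)
  exact uni_cond hn hd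

end Pool.Agent.TH603.Sur
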