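import Pool.Agent.TH603.Sur.Lim
import Pool.Agent.TH819.NagA

/-! The final criteria: all points on a line. -/

namespace Pool.Agent.TH603.Sur

open Finset Pool.Agent.TH176.Nag Pool.Agent.TH181.NagM

/-- intervals of `∑ (w_i - k)` exponents in the row `k` -/
def Rws {ι : Type} [Fintype ι] (w : ι → ℕ) (A : ℤ) : Set (ℤ × ℤ) :=
  {m | 0 ≤ m.2 ∧ A ≤ m.1 ∧ m.1 < A + ((∑ i, (w i - m.2.toNat) : ℕ) : ℤ)}

theorem rows_main {ι : Type} [Fintype ι] (x : ι → ℚ) (hx : Function.Injective x) (hx0 : ∀ i, x i ≠ 0)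
    (A : ℤ) (H : ℕ) :
    ∀ (f : (ℤ × ℤ) →₀ ℚ) (w : ι → ℕ),
      (↑f.support : Set (ℤ × ℤ)) ⊆ Rws w A → (∀ m ∈ f.support, m.2 < H) →
      (∀ i, LM f (x i) 1 (w i)) → f = 0 := by
  classical
  induction H with
  | zero =>
    intro f w hS hH _
    rw [← Finsupp.support_eq_empty, Finset.eq_empty_iff_forall_notMem]
    intro m hm
    have h1 := (hS hm).1
    have h2 := hH m hm
    simp at h2
    omega
  | succ H ih =>
    intro f w hS hH hL
    have hpos : ∀ m ∈ f.support, 0 ≤ m.2 := fun m hm => (hS hm).1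
    -- the sums of the columns
    set h : ℤ →₀ ℚ := f.mapDomain Prod.fst with hh
    have hh0 : h = 0 := by
      refine Pool.Agent.TH819.NagA.one_var x hx hx0 w h A (A + (∑ i, (w i : ℝ)) - 1) ?_ (by linarith) ?_
      · intro a ha
        have h1 := Finsupp.mapDomain_support ha
        obtain ⟨m, hm, rfl⟩ := Finset.mem_image.1 h1
        obtain ⟨-, h4, h5⟩ := hS hm
        constructor
        · exact_mod_cast h4
        · have h6 : m.1 + 1 ≤ A + ((∑ i, w i : ℕ) : ℤ) := by
            have h7 : (∑ i, (w i - m.2.toNat) : ℕ) ≤ ∑ i, w i := sum_le_sum fun i _ => Nat.sub_le _ _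
            omega
          have h8 : ((m.1 + 1 : ℤ) : ℝ) ≤ ((A + ((∑ i, w i : ℕ) : ℤ) : ℤ) : ℝ) := by exact_mod_cast h6
          push_cast at h8
          linarith
      · intro i c hc
        have h1 := hL i _ (mem_PF_mono (K := ℚ) (a := c) (b := 0) (w := w i) (by omega))
        rw [hh, Finsupp.sum_mapDomain_index (by simp) (by intro m a b; ring)]
        unfold pr at h1
        rw [← h1]
        refine Finset.sum_congr rfl fun m _ => ?_
        simp
        ring
    have hd : Pool.Agent.TH819.NagA.dv f = 0 := by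
      refine ih (Pool.Agent.TH819.NagA.dv f) (fun i => w i - 1) ?_ ?_
        (fun i => Pool.Agent.TH819.NagA.dv_LM hpos (hL i))
      · intro m hm
        obtain ⟨h1, b, h2, h3⟩ := Pool.Agent.TH819.NagA.dv_supp hm
        obtain ⟨-, h4, h5⟩ := hS h3
        simp only at h4 h5
        refine ⟨h1, h4, lt_of_lt_of_le h5 ?_⟩
        have h6 : (∑ i, (w i - b.toNat) : ℕ) ≤ ∑ i, ((fun i => w i - 1) i - m.2.toNat) :=
          sum_le_sum fun i _ => by simp only; omega
        omega
      · intro m hm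
        obtain ⟨h1, b, h2, h3⟩ := Pool.Agent.TH819.NagA.dv_supp hm
        have h4 := hH _ h3
        simp only [] at h4
        push_cast at h4
        omega
    -- recover f
    have hcol : ∀ a : ℤ, (∑ m ∈ f.support, if m.1 = a then f m else 0) = 0 := by
      intro a
      have h1 : h a = 0 := by rw [hh0]; rfl
      rw [hh, Finsupp.mapDomain, Finsupp.sum, Finsupp.finsetSum_apply] at h1
      simp_rw [Finsupp.single_apply] at h1
      exact h1
    have htail : ∀ (a : ℤ) (j : ℕ), (∑ m ∈ f.support, if m.1 = a ∧ j < m.2.toNat then f m else 0) = 0 := by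
      intro a j
      rw [← Pool.Agent.TH819.NagA.dv_apply, hd]
      rfl
    ext ⟨a, b⟩
    rw [Finsupp.zero_apply]
    by_contra hne
    have hm : (a, b) ∈ f.support := Finsupp.mem_support_iff.2 hne
    have hb := hpos _ hm
    simp only [] at hb
    -- `f (a,b)` is a difference of tails
    have key : ∀ T : ℕ → Prop, ∀ [DecidablePred T], (∀ n, T n ↔ (b.toNat ≤ n)) →
        (∑ m ∈ f.support, if m.1 = a ∧ T m.2.toNat then f m else 0) =
        (∑ m ∈ f.support, if m.1 = a ∧ b.toNat < m.2.toNat then f m else 0) + f (a, b) := by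
      intro T _ hT
      have h1 : f (a, b) = ∑ m ∈ f.support, if m = (a, b) then f m else 0 := by
        rw [Finset.sum_ite_eq' f.support (a, b) fun m => f m, if_pos hm]
      rw [h1, ← Finset.sum_add_distrib]
      refine Finset.sum_congr rfl fun m hm' => ?_
      have h2 := hpos m hm'
      by_cases h3 : m = (a, b)
      · subst h3
        simp [hT]
      · rw [if_neg h3, add_zero]
        by_cases h4 : m.1 = a
        · have h5 : m.2 ≠ b := fun h6 => h3 (Prod.ext h4 h6)
          have h6 : T m.2.toNat ↔ b.toNat < m.2.toNat := by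
            rw [hT]
            omega
          simp only [h4, h6, true_and]
        · simp only [h4, false_and, if_false]
    rcases Nat.eq_zero_or_pos b.toNat with h0 | h0
    · have h1 := key (fun _ => True) (fun n => by simp [h0])
      simp only [and_true] at h1
      rw [hcol, htail, zero_add] at h1
      exact hne h1.symm
    · have h1 := key (fun n => b.toNat - 1 < n) (fun n => by omega)
      rw [htail, htail, zero_add] at h1
      exact hne h1.symm

/-- emptiness for the rows -/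
theorem Emp_rows {ι : Type} [Fintype ι] (w : ι → ℕ) (A : ℤ) : Emp w (Rws w A) := by
  classical
  set e := Fintype.equivFin ι
  have hinj : Function.Injective fun i : ι => (((e i : ℕ) + 1 : ℕ) : ℚ) := by
    intro i j hij
    simp only [Nat.cast_inj] at hij
    exact e.injective (Fin.ext (by omega))
  have h0 : ∀ i : ι, (((e i : ℕ) + 1 : ℕ) : ℚ) ≠ 0 := fun i => Nat.cast_ne_zero.2 (Nat.succ_ne_zero _)
  refine ⟨ℚ, inferInstance, inferInstance, fun i => (((e i : ℕ) + 1 : ℕ) : ℚ), fun _ => 1,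
    h0, fun _ => one_ne_zero, fun f hS hL => ?_⟩
  obtain ⟨H, hH⟩ : ∃ H : ℕ, ∀ m ∈ f.support, m.2 < H := by
    refine ⟨(f.support.sup fun m => m.2.toNat) + 1, fun m hm => ?_⟩
    have h1 : m.2.toNat ≤ f.support.sup fun m => m.2.toNat :=
      Finset.le_sup (f := fun m : ℤ × ℤ => m.2.toNat) hm
    push_cast
    omega
  exact rows_main _ hinj h0 A H f w hS hH hL

theorem sum_range_sub (n H : ℕ) (h : n ≤ H) : ∑ k ∈ range H, (n - k) = (n + 1).choose 2 := by
  have h1 : ∑ k ∈ range H, (n - k) = ∑ k ∈ range (n + 1), (n - k) := by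
    rcases Nat.lt_or_ge n H with h2 | h2
    · rw [← Finset.sum_subset (Finset.range_mono (show n + 1 ≤ H from h2))]
      intro k _ hk
      rw [mem_range] at hk
      omega
    · have : H = n := le_antisymm h2 h
      subst this
      rw [sum_range_succ]
      simp
  rw [h1]
  have h2 := Finset.sum_range_reflect (fun k => k) (n + 1)
  have h3 : ∑ k ∈ range (n + 1), (n - k) = ∑ k ∈ range (n + 1), (n + 1 - 1 - k) :=
    sum_congr rfl fun k _ => by simp
  rw [h3, h2, Finset.sum_range_id, Nat.choose_two_right]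

/-- independence for sets containing the rows -/
theorem Sur_rows {ι : Type} [Fintype ι] (w : ι → ℕ) (A : ℤ) {S : Set (ℤ × ℤ)}
    (h : ∀ (k j : ℕ), j < ∑ i, (w i - k) → (A + j, (k : ℤ)) ∈ S) : Sur w S := by
  classical
  obtain ⟨H, hH⟩ : ∃ H : ℕ, ∀ i, w i ≤ H := ⟨∑ i, w i, fun i => single_le_sum (f := w) (fun _ _ => Nat.zero_le _) (mem_univ i)⟩
  let T : Finset (ℤ × ℤ) := (range H).biUnion fun k =>
    (range (∑ i, (w i - k))).image fun j : ℕ => ((A + j, (k : ℤ)) : ℤ × ℤ)
  refine ⟨T, ?_, ?_, ?_⟩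
  · intro m hm
    rw [mem_coe] at hm
    simp only [T, mem_biUnion, mem_image, mem_range] at hm
    obtain ⟨k, hk, j, hj, rfl⟩ := hm
    exact h k j hj
  · rw [card_biUnion]
    · have h1 : ∀ k ∈ range H, ((range (∑ i, (w i - k))).image fun j : ℕ => ((A + j, (k : ℤ)) : ℤ × ℤ)).card =
          ∑ i, (w i - k) := by
        intro k _
        rw [card_image_of_injective, card_range]
        intro j j' hjj
        have := (Prod.mk.inj hjj).1
        omega
      rw [sum_congr rfl h1, sum_comm]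
      unfold cond
      exact sum_congr rfl fun i _ => sum_range_sub _ _ (hH i)
    · intro k _ k' _ hne
      rw [Function.onFun, disjoint_left]
      intro m hm hm'
      rw [mem_image] at hm hm'
      obtain ⟨j, _, rfl⟩ := hm
      obtain ⟨j', _, h⟩ := hm'
      apply hne
      have := (Prod.mk.inj h).2
      omega
  · refine (Emp_rows w A).mono ?_
    intro m hm
    rw [mem_coe] at hm
    simp only [T, mem_biUnion, mem_image, mem_range] at hm
    obtain ⟨k, hk, j, hj, rfl⟩ := hm
    refine ⟨by simp, by simp, ?_⟩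
    simp only [Int.toNat_natCast]
    have : (j : ℤ) < ((∑ i, (w i - k) : ℕ) : ℤ) := by exact_mod_cast hj
    linarith

/-- the final criterion in right triangles -/
theorem Sur_final {ι : Type} [Fintype ι] (w : ι → ℕ) (α B n : ℝ)
    (h : ∀ k : ℕ, (∃ i, k < w i) → ((∑ i, (w i - k) : ℕ) : ℝ) + n * (k + 1) < B) :
    Sur w (RegO α (α + B) 0 n) := by
  have h1 : Sur w {p : ℤ × ℤ | (p.1, p.2 + 1) ∈ RegO α (α + B) 0 n} := by
    apply Sur_rows w (⌊α⌋ + 1)
    intro k j hj
    have hk : ∃ i, k < w i := by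
      by_contra hcon
      push Not at hcon
      have : ∑ i, (w i - k) = 0 := sum_eq_zero fun i _ => Nat.sub_eq_zero_of_le (hcon i)
      omega
    have h2 := h k hk
    have h3 : (j : ℝ) + 1 ≤ ((∑ i, (w i - k) : ℕ) : ℝ) := by exact_mod_cast hj
    have h4 := Int.floor_le α
    have h5 := Int.lt_floor_add_one α
    have h6 : (0 : ℝ) ≤ j := Nat.cast_nonneg j
    refine ⟨by simp only; omega, ?_, ?_⟩
    · simp only
      push_cast
      linarith
    · simp only
      push_cast
      linarith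
  refine h1.shift 0 (-1) ?_
  rintro ⟨a, b⟩ hab
  simpa using hab

/-- the conditions of points of multiplicities `w i ≤ b + 1` -/
theorem SP_final {ι : Type} [Fintype ι] (w : ι → ℕ) (b : ℕ) (hb : ∀ i, w i ≤ b + 1) {n c : ℝ}
    (hn : 0 < n) (hcard : n = Fintype.card ι) (hc : n + ((∑ i, max (w i) b : ℕ) : ℝ) ≤ c * √n) :
    SP w c 0 n := by
  refine ⟨by simpa using hn, fun E hE α => ?_⟩
  rw [zero_add]
  apply Sur_final
  rintro k ⟨i, hi⟩
  have hs : 0 < √n := Real.sqrt_pos.2 hn
  have h1 : c * √n < E * √n := mul_lt_mul_of_pos_right hE hs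
  have hkb : k ≤ b := by have := hb i; omega
  have h2 : ∑ i, (w i - k) + Fintype.card ι * k ≤ ∑ i, max (w i) b := by
    have : Fintype.card ι * k = ∑ _i : ι, k := by simp
    rw [this, ← sum_add_distrib]
    refine sum_le_sum fun i _ => ?_
    rcases le_total (w i) k with h | h
    · rw [Nat.sub_eq_zero_of_le h, zero_add]
      exact hkb.trans (le_max_right _ _)
    · rw [Nat.sub_add_cancel h]
      exact le_max_left _ _
  have h3 : ((∑ i, (w i - k) : ℕ) : ℝ) + n * k ≤ ((∑ i, max (w i) b : ℕ) : ℝ) := by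
    rw [hcard]
    exact_mod_cast h2
  linarith

/-- independence of the conditions on the forms of degree `d` at `D t ^ 2` points -/
theorem Sur_cls {D : ℕ} (hD : 1 ≤ D) : ∃ t0 : ℕ, 1 ≤ t0 ∧ ∀ t : ℕ, t0 ≤ t → ∀ (ι : Type) [Fintype ι],
    Fintype.card ι = D * t ^ 2 → ∀ (w : ι → ℕ) (b d : ℕ), (∀ i, w i ≤ b + 1) →
    ((D * t ^ 2 : ℕ) : ℝ) + ((∑ i, max (w i) b : ℕ) : ℝ) < √((D * t ^ 2 : ℕ) : ℝ) * (d + 3) →
    Sur w {m : ℤ × ℤ | 0 ≤ m.1 ∧ 0 ≤ m.2 ∧ m.1 + m.2 ≤ (d : ℤ)} := by
  obtain ⟨t0, ht0, h⟩ := Mv_cls (M := 1) (D := D) le_rfl hD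
  refine ⟨t0, ht0, fun t ht ι _ hcard w b d hb hlt => ?_⟩
  have hn : (0 : ℝ) < ((D * t ^ 2 : ℕ) : ℝ) := by
    have : 0 < D * t ^ 2 := by
      have : 1 ≤ t := ht0.trans ht
      positivity
    exact_mod_cast this
  have hs : 0 < √((D * t ^ 2 : ℕ) : ℝ) := Real.sqrt_pos.2 hn
  set n : ℝ := ((D * t ^ 2 : ℕ) : ℝ) with hndef
  obtain ⟨c, hc⟩ : ∃ c : ℝ, c = (n + ((∑ i, max (w i) b : ℕ) : ℝ)) / √n := ⟨_, rfl⟩
  have hc0 : 0 ≤ c := by rw [hc]; positivity
  have hcd : c < d + 3 := by
    rw [hc, div_lt_iff₀ hs]; linarith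
  have h1 : SP w c 0 n := SP_final w b hb hn (by rw [hcard]) (by
    rw [hc, div_mul_cancel₀ _ hs.ne'])
  have h2 : SP w c 0 ((1 : ℕ) : ℝ) := by
    refine (h t ht).closed (SP_closed hc0) ?_
    have e : ((t : ℝ) ^ 2 * D) = n := by rw [hndef]; push_cast; ring
    rw [e]
    exact h1
  have h3 := h2.2 (d + 3) hcd 0
  rw [zero_add, zero_add, Nat.cast_one, Real.sqrt_one, mul_one] at h3
  refine h3.shift 1 1 ?_
  rintro ⟨x, y⟩ ⟨hy, hx, hxy⟩
  simp only at hy hx hxy
  refine ⟨?_, ?_, ?_⟩
  · simp only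
    have : (0 : ℝ) < x := by linarith
    have : (0 : ℤ) < x := by exact_mod_cast this
    omega
  · simp only; omega
  · simp only
    have h4 : (x : ℝ) + y < d + 3 := by linarith
    have h5 : x + y < d + 3 := by exact_mod_cast h4
    omega

end Pool.Agent.TH603.Sur
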