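import Pool.Agent.TH603.Sur.Forms
import Pool.Agent.TH603.Sur.Rows
import Pool.Agent.TH181.Nag.Cls

/-! Exact postulation of `D t ^ 2` general fat points outside a bounded window of degrees. -/

namespace Pool.Agent.TH603.Sur

open Finset Pool.Agent.TH176.Nag Pool.Agent.H932R3

/-- the expected dimension for general points, in all degrees satisfying one of two conditions,
the first downward closed and bounded, the second upward closed -/
theorem expDim_two {n : ℕ} {w : Fin n → ℕ} {A B : ℕ → Prop} (N : ℕ) (hA : ∀ d, A d → d ≤ N)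
    (hAE : ∀ d, A d → Emp w (TZ d)) (hBS : ∀ d, B d → Sur w (TZ d)) :
    ∃ F : MvPolynomial (Fin n × Fin 2) ℚ, F ≠ 0 ∧ ∀ {L : Type} [Field L] [CharZero L]
      (P : Fin n → Fin 2 → L), MvPolynomial.aeval (fun ij : Fin n × Fin 2 => P ij.1 ij.2) F ≠ 0 →
      ∀ d, (A d ∨ B d) → ExpDim L w P d := by
  classical
  have p1 : ∃ F : MvPolynomial (Fin n × Fin 2) ℚ, F ≠ 0 ∧ ∀ {L : Type} [Field L] [CharZero L]
      (P : Fin n → Fin 2 → L), MvPolynomial.aeval (fun ij : Fin n × Fin 2 => P ij.1 ij.2) F ≠ 0 →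
      ∀ d, A d → ExpDim L w P d := by
    by_cases hex : ∃ d, A d
    · obtain ⟨d0, hd0⟩ := hex
      have h1 := Nat.findGreatest_spec (P := A) (hA d0 hd0) hd0
      obtain ⟨F, hF, hF'⟩ := full_open (hAE _ h1)
      exact ⟨F, hF, fun {L} _ _ P hP d hd => hF' P hP d (Nat.le_findGreatest (hA d hd) hd)⟩
    · exact ⟨1, one_ne_zero, fun {L} _ _ P _ d hd => absurd ⟨d, hd⟩ hex⟩
  have p2 : ∃ F : MvPolynomial (Fin n × Fin 2) ℚ, F ≠ 0 ∧ ∀ {L : Type} [Field L] [CharZero L]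
      (P : Fin n → Fin 2 → L), MvPolynomial.aeval (fun ij : Fin n × Fin 2 => P ij.1 ij.2) F ≠ 0 →
      ∀ d, B d → ExpDim L w P d := by
    by_cases hex : ∃ d, B d
    · obtain ⟨F, hF, hF'⟩ := indep_open (hBS _ (Nat.find_spec hex))
      exact ⟨F, hF, fun {L} _ _ P hP d hd => hF' P hP d (Nat.find_min' hex hd)⟩
    · exact ⟨1, one_ne_zero, fun {L} _ _ P _ d hd => absurd ⟨d, hd⟩ hex⟩
  obtain ⟨F1, hF1, h1⟩ := p1
  obtain ⟨F2, hF2, h2⟩ := p2
  refine ⟨F1 * F2, mul_ne_zero hF1 hF2, fun {L} _ _ P hP d hd => ?_⟩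
  rw [map_mul] at hP
  rcases hd with hd | hd
  · exact h1 P (left_ne_zero_of_mul hP) d hd
  · exact h2 P (right_ne_zero_of_mul hP) d hd

/-- **Exact postulation of `D t ^ 2` general fat points.** -/
theorem expDim_cls {D : ℕ} (hD : 1 ≤ D) : ∃ t0 : ℕ, 1 ≤ t0 ∧ ∀ t : ℕ, t0 ≤ t →
    ∀ w : Fin (D * t ^ 2) → ℕ, ∃ F : MvPolynomial (Fin (D * t ^ 2) × Fin 2) ℚ, F ≠ 0 ∧
      ∀ {L : Type} [Field L] [CharZero L] (P : Fin (D * t ^ 2) → Fin 2 → L),
        MvPolynomial.aeval (fun ij : Fin (D * t ^ 2) × Fin 2 => P ij.1 ij.2) F ≠ 0 →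
        ∀ d : ℕ, (√((D * t ^ 2 : ℕ) : ℝ) * d < ∑ i, (w i : ℝ) ∨
          ∃ b : ℕ, (∀ i, w i ≤ b + 1) ∧
            ((D * t ^ 2 : ℕ) : ℝ) + ((∑ i, max (w i) b : ℕ) : ℝ) < √((D * t ^ 2 : ℕ) : ℝ) * (d + 3)) →
          ExpDim L w P d := by
  obtain ⟨t1, ht1, hE⟩ := Pool.Agent.TH181.Nag.Emp_cls hD
  obtain ⟨t2, ht2, hS⟩ := Sur_cls hD
  refine ⟨max t1 t2, ht1.trans (le_max_left _ _), fun t ht w => ?_⟩
  have hn : (1 : ℝ) ≤ ((D * t ^ 2 : ℕ) : ℝ) := by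
    have : 1 ≤ D * t ^ 2 := by
      have : 1 ≤ t := ht1.trans ((le_max_left _ _).trans ht)
      have : 0 < D * t ^ 2 := by positivity
      exact this
    exact_mod_cast this
  have hs : 1 ≤ √((D * t ^ 2 : ℕ) : ℝ) := Real.one_le_sqrt.2 hn
  refine expDim_two (N := ∑ i, w i) (fun d hd => ?_) (fun d hd => ?_) (fun d hd => ?_)
  · have h1 : (d : ℝ) ≤ √((D * t ^ 2 : ℕ) : ℝ) * d := le_mul_of_one_le_left (Nat.cast_nonneg _) hs
    have h2 : (d : ℝ) < ((∑ i, w i : ℕ) : ℝ) := by push_cast; linarith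
    exact (by exact_mod_cast h2.le)
  · exact hE t ((le_max_left _ _).trans ht) _ (Fintype.card_fin _) w d hd
  · obtain ⟨b, hb, hlt⟩ := hd
    exact hS t ((le_max_right _ _).trans ht) _ (Fintype.card_fin _) w b d hb hlt

end Pool.Agent.TH603.Sur
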