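import Pool.Agent.TH603.Sur.Flat
import Pool.Agent.TH603.Sur.Count
import Pool.Agent.TH181.Nag.Move
import Pool.Agent.TH176.Nag.Limit

/-! The staircase limit for independence, and the closure of independence under all moves. -/

namespace Pool.Agent.TH603.Sur

open Finset Pool.Agent.TH176.Nag Pool.Agent.TH181.NagM

variable {ι : Type} [Fintype ι] {w : ι → ℕ}

theorem Emp_empty {κ : Type} (v : κ → ℕ) : Emp v (∅ : Set (ℤ × ℤ)) := by
  refine ⟨ℚ, inferInstance, inferInstance, fun _ => 1, fun _ => 1, fun _ => one_ne_zero,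
    fun _ => one_ne_zero, fun f hf _ => ?_⟩
  rw [Set.subset_empty_iff, Finset.coe_eq_empty, Finsupp.support_eq_empty] at hf
  exact hf

/-- from the charts to the weighted plane -/
theorem Sur_WPz {N : ℕ} (hN : 3 ≤ N) (t : ℕ) (E : ℤ) (h : Sur w (Q3z N (t + 2) E)) :
    Sur w (WPz N E) := by
  obtain ⟨hfin, hcard⟩ := Q3z_card hN t E
  have hfin2 := WPz_finite hN E
  rw [← hfin.coe_toFinset] at h
  rw [← hfin2.coe_toFinset]
  refine Sur.transfer ?_ (fun κ v h => ?_) h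
  · rw [Set.ncard_eq_toFinset_card _ hfin, Set.ncard_eq_toFinset_card _ hfin2] at hcard
    exact hcard
  · rw [hfin2.coe_toFinset]
    rw [hfin.coe_toFinset] at h
    rcases le_or_gt 0 E with h0 | h0
    · obtain ⟨e, rfl⟩ := Int.eq_ofNat_of_zero_le h0
      exact Emp_Q3z hN t e h
    · refine (Emp_empty v).mono ?_
      rintro ⟨a, b⟩ ⟨h1, h2, h3⟩
      exfalso
      simp only at h1 h2 h3
      have hN' : (3 : ℤ) ≤ N := by exact_mod_cast hN
      have : 0 ≤ ((N : ℤ) - 2) * b := mul_nonneg (by omega) h2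
      linarith

theorem RegO_sub {N : ℕ} (hN : 3 ≤ N) {ω : ℝ} (_hω : 0 < ω) {t : ℕ} {E : ℤ} {B : ℝ}
    (h1 : ((gs N (t + 1) : ℤ) : ℝ) ≤ ω * (gs N t : ℤ)) (h2 : B * (gs N t : ℤ) ≤ E * (gs N (t + 1) : ℤ))
    {p : ℤ × ℤ} (hp : p ∈ RegO (-(E : ℝ) / (N - 2)) (-(E : ℝ) / (N - 2) + B / (N - 2)) (1 / (N - 2))
      ((ω ^ 2 - 1) / (N - 2))) : (p.1 + 1, p.2 - 1) ∈ Q3z N t (E - N) := by
  obtain ⟨a, b⟩ := p
  obtain ⟨hb, hl, hr⟩ := hp
  simp only at hb hl hr
  have hN' : (3 : ℤ) ≤ N := by exact_mod_cast hN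
  have hg := gs_pos hN' t
  have hg' := gs_pos hN' (t + 1)
  have hmk := gs_markov (N := (N : ℤ)) t
  have hM : (0 : ℝ) < (N : ℝ) - 2 := by
    have : (3 : ℝ) ≤ N := by exact_mod_cast hN
    linarith
  obtain ⟨⟨x, hx⟩, ⟨y, hy⟩⟩ := gs_mod (N := (N : ℤ)) t
  set g : ℤ := gs N t
  set g' : ℤ := gs N (t + 1)
  have hgR : (0 : ℝ) < g := by exact_mod_cast hg
  have hgR' : (0 : ℝ) < g' := by exact_mod_cast hg'
  have hbR : (0 : ℝ) < b := by exact_mod_cast hb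
  -- the two real conditions
  have c1 : (b : ℝ) < (N - 2) * a + E := by
    have e : -(E : ℝ) / (N - 2) + 1 / (N - 2) * b = (b - E) / (N - 2) := by ring
    rw [e, div_lt_iff₀ hM] at hl
    linarith
  have c2 : ((N : ℝ) - 2) * a + E + (ω ^ 2 - 1) * b < B := by
    have e : -(E : ℝ) / (N - 2) + B / (N - 2) - (ω ^ 2 - 1) / (N - 2) * b =
      (B - E - (ω ^ 2 - 1) * b) / (N - 2) := by ring
    rw [e, lt_div_iff₀ hM] at hr
    linarith
  have c1' : b < (N - 2) * a + E := by exact_mod_cast c1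
  have c3 : (((N : ℝ) - 2) * a + E) * g ^ 2 + b * (g' ^ 2 - g ^ 2) < E * (g * g') := by
    have h3 : 0 ≤ ω ^ 2 * g ^ 2 - g' ^ 2 := by nlinarith
    have h4 : g ^ 2 * (((N : ℝ) - 2) * a + E + (ω ^ 2 - 1) * b) < g ^ 2 * B :=
      mul_lt_mul_of_pos_left c2 (by positivity)
    have h5 : g * (B * g) ≤ g * (E * g') := mul_le_mul_of_nonneg_left h2 hgR.le
    have h6 : 0 ≤ (b : ℝ) * (ω ^ 2 * g ^ 2 - g' ^ 2) := mul_nonneg hbR.le h3
    nlinarith
  have c3' : ((N - 2) * a + E) * g ^ 2 + b * (g' ^ 2 - g ^ 2) < E * (g * g') := by exact_mod_cast c3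
  -- divisibility
  have hdvd : ((N : ℤ) - 2) ∣ E * (g * g') - (((N - 2) * a + E) * g ^ 2 + b * (g' ^ 2 - g ^ 2)) := by
    refine ⟨E * g * (y - x) - a * g ^ 2 - b * (y - x) * (g' + g), ?_⟩
    have hgg : g' - g = (N - 2) * (y - x) := by linear_combination hy - hx
    linear_combination (E * g - b * (g' + g)) * hgg
  have c4 : (N : ℤ) - 2 ≤ E * (g * g') - (((N - 2) * a + E) * g ^ 2 + b * (g' ^ 2 - g ^ 2)) :=
    Int.le_of_dvd (by linarith) hdvd
  refine ⟨?_, ?_, ?_⟩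
  · simp only; omega
  · simp only; linarith
  · simp only
    linarith

/-- independence for all triangles of shape `(μ, ν)` of twice the area more than `c ^ 2` -/
def SP (w : ι → ℕ) (c : ℝ) (μ ν : ℝ) : Prop :=
  0 < μ + ν ∧ ∀ E : ℝ, c < E → ∀ α : ℝ, Sur w (RegO α (α + E * √(μ + ν)) μ ν)

theorem Sur_lim {c : ℝ} (hc : 0 ≤ c) {M : ℕ} (hM : 1 ≤ M) {ω : ℝ} (hω : 2 ≤ ω)
    (hω2 : ω ^ 2 + 1 = (M + 2) * ω) (h : SP w c (1 / M) ((ω ^ 2 - 1) / M)) : SP w c 0 M := by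
  have hM' : (0 : ℝ) < M := by exact_mod_cast hM
  have hs : 0 < √(M : ℝ) := Real.sqrt_pos.2 hM'
  have hs2 : √(M : ℝ) ^ 2 = M := Real.sq_sqrt hM'.le
  refine ⟨by simpa using hM', fun E hE α => ?_⟩
  rw [zero_add]
  obtain ⟨F, hF1, hF2⟩ : ∃ F : ℝ, c < F ∧ F < E := exists_between hE
  obtain ⟨E', hE'⟩ : ∃ E' : ℤ, E' = ⌈α + E * √(M : ℝ)⌉ - ⌊α⌋ := ⟨_, rfl⟩
  have hE'1 : E * √(M : ℝ) ≤ E' := by
    rw [hE']
    push_cast
    have h1 := Int.le_ceil (α + E * √(M : ℝ))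
    have h2 := Int.floor_le α
    linarith
  have hN : 3 ≤ M + 2 := by omega
  have hNR : (((M + 2 : ℕ) : ℝ)) - 2 = M := by push_cast; ring
  have hlt : √(M : ℝ) * F < E' := by
    have : √(M : ℝ) * F < E * √(M : ℝ) := by
      rw [mul_comm]; exact mul_lt_mul_of_pos_right hF2 hs
    linarith
  have hpos : (0 : ℝ) < E' := by
    have : 0 < √(M : ℝ) * F := mul_pos hs (by linarith)
    linarith
  obtain ⟨t, ht, h1, h2⟩ := gs_ratio (N := M + 2) hN hω (by push_cast; linarith) hlt hpos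
  obtain ⟨s, rfl⟩ : ∃ s, t = s + 2 := ⟨t - 2, by omega⟩
  have h3 := h.2 F hF1 (-(E' : ℝ) / M)
  have h4 : √(1 / (M : ℝ) + (ω ^ 2 - 1) / M) = ω / √(M : ℝ) := by
    have : (1 / (M : ℝ) + (ω ^ 2 - 1) / M) = ω ^ 2 / M := by field_simp; ring
    rw [this, Real.sqrt_div (sq_nonneg _), Real.sqrt_sq (by linarith)]
  rw [h4] at h3
  have h5 : F * (ω / √(M : ℝ)) = (ω * (√(M : ℝ) * F)) / M := by
    rw [eq_div_iff hM'.ne']
    have : (M : ℝ) = √(M : ℝ) * √(M : ℝ) := by rw [← sq]; exact hs2.symm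
    field_simp
    rw [hs2]
  rw [h5] at h3
  have h6 : Sur w (Q3z (M + 2) (s + 2) (E' - (M + 2 : ℕ))) := by
    refine h3.shift (-1) 1 ?_
    intro m' hm'
    have e1 : m'.1 - -1 = m'.1 + 1 := by ring
    rw [e1]
    apply RegO_sub hN (ω := ω) (B := ω * (√(M : ℝ) * F)) (by linarith) h1 h2
    rw [hNR]
    exact hm'
  have h7 := Sur_WPz hN s _ h6
  refine h7.shift (-⌊α⌋ - 1) (-1) ?_
  rintro ⟨a, b⟩ ⟨ha, hb, hab⟩
  simp only at ha hb hab
  have hbR : (0 : ℝ) ≤ b := by exact_mod_cast hb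
  have haR : (0 : ℝ) ≤ a := by exact_mod_cast ha
  refine ⟨?_, ?_, ?_⟩
  · simp only; omega
  · simp only
    push_cast
    have := Int.lt_floor_add_one α
    linarith
  · simp only
    have h8 : (a : ℝ) + M * b ≤ E' - (M + 2) := by
      have : a + ((M + 2 : ℕ) - 2 : ℤ) * b ≤ E' - (M + 2 : ℕ) := hab
      have h9 : ((a + ((M + 2 : ℕ) - 2 : ℤ) * b : ℤ) : ℝ) ≤ ((E' - (M + 2 : ℕ) : ℤ) : ℝ) := by
        exact_mod_cast this
      push_cast at h9
      linarith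
    have h9 := Int.ceil_lt_add_one (α + E * √(M : ℝ))
    have h10 : (E' : ℝ) = ⌈α + E * √(M : ℝ)⌉ - ⌊α⌋ := by rw [hE']; push_cast; ring
    push_cast
    linarith

/-- independence is closed under all moves -/
theorem SP_closed {c : ℝ} (hc : 0 ≤ c) : Closed (SP w c) where
  mirror := by
    rintro μ ν ⟨h0, h⟩
    refine ⟨by linarith, fun E hE α => ?_⟩
    apply Sur_mirror
    have h1 := h E hE (-(α + E * √(μ + ν)))
    rw [add_comm ν μ] at h1
    have e : -(α + E * √(μ + ν)) + E * √(μ + ν) = -α := by ring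
    rwa [e] at h1
  shear := by
    rintro μ ν k ⟨h0, h⟩
    have e : μ + k + (ν - k) = μ + ν := by ring
    rw [e] at h0 h
    exact ⟨h0, fun E hE α => Sur_shear k (h E hE α)⟩
  stepA := by
    rintro μ ν u v hc' hu h1 h2 hn ⟨-, h⟩
    refine ⟨hn, fun E hE α => ?_⟩
    obtain ⟨p, q, hpq⟩ := hc'
    have h3 := h E hE (u * α)
    have e1 : u * (u * μ + v) + (v - u * ν) * (u * μ + v) / (μ + ν) = (u * μ + v) ^ 2 / (μ + ν) := by
      field_simp
      ring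
    have hs : 0 < √(μ + ν) := Real.sqrt_pos.2 hn
    have hs2 : √(μ + ν) ^ 2 = μ + ν := Real.sq_sqrt hn.le
    have e2 : √(u * (u * μ + v) + (v - u * ν) * (u * μ + v) / (μ + ν)) = (u * μ + v) / √(μ + ν) := by
      rw [e1, Real.sqrt_div (sq_nonneg _), Real.sqrt_sq h1]
    rw [e2] at h3
    refine Sur_regA u v p q (by linarith) hu (by linarith) h2 hn rfl ?_ rfl ?_ h3
    · have e3 : E * ((u * μ + v) / √(μ + ν)) * (μ + ν) = E * (u * μ + v) * √(μ + ν) := by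
        have e4 : E * ((u * μ + v) / √(μ + ν)) * (μ + ν) =
            E * ((u * μ + v) / √(μ + ν)) * √(μ + ν) ^ 2 := by rw [hs2]
        rw [e4]
        field_simp
      linear_combination e3
    · rw [div_mul_cancel₀ _ hn.ne']; ring
  stepC := by
    rintro μ ν u v hc' hu h1 h2 ⟨h0, h⟩
    have e1 : u * (u * μ + v) + u * (u * ν - v) = u ^ 2 * (μ + ν) := by ring
    rw [e1] at h0
    have hn : 0 < μ + ν := by
      by_contra hcon
      have : (u : ℝ) ^ 2 * (μ + ν) ≤ 0 := mul_nonpos_of_nonneg_of_nonpos (sq_nonneg _) (not_lt.1 hcon)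
      linarith
    refine ⟨hn, fun E hE α => ?_⟩
    obtain ⟨p, q, hpq⟩ := hc'
    have h3 := h E hE (u * α)
    have hu' : (0 : ℝ) ≤ u := by exact_mod_cast hu
    have e2 : √(u * (u * μ + v) + u * (u * ν - v)) = u * √(μ + ν) := by
      rw [e1, Real.sqrt_mul (sq_nonneg _), Real.sqrt_sq hu']
    rw [e2] at h3
    refine Sur_regC u v p q (by linarith) hu (by linarith) h2 rfl ?_ rfl rfl h3
    ring
  lim := fun hM _ hω hω2 h => Sur_lim hc hM hω hω2 h

end Pool.Agent.TH603.Sur
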