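import Pool.Agent.TH176.Nag.Flat

/-! Independence of the conditions imposed by fat points, and its relation to emptiness.
`Sur w S`: some set of exactly `∑ w_i (w_i + 1) / 2` exponents in `S` carries no nonzero Laurent
polynomial with the multiplicities `w i` at suitable points; equivalently the conditions are
independent on the Laurent polynomials with exponents in `S`. -/

namespace Pool.Agent.TH603.Sur

open Finset Pool.Agent.TH176.Nag

/-- the number of conditions imposed by points of multiplicities `w i` -/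
def cond {ι : Type} [Fintype ι] (w : ι → ℕ) : ℕ := ∑ i, (w i + 1).choose 2

/-- the conditions are independent on the exponents `S`, at suitable points -/
def Sur {ι : Type} [Fintype ι] (w : ι → ℕ) (S : Set (ℤ × ℤ)) : Prop :=
  ∃ T : Finset (ℤ × ℤ), (↑T : Set (ℤ × ℤ)) ⊆ S ∧ T.card = cond w ∧ Emp w (↑T : Set (ℤ × ℤ))

theorem Sur.mono {ι : Type} [Fintype ι] {w : ι → ℕ} {S S' : Set (ℤ × ℤ)} (h : Sur w S') (hS : S' ⊆ S) :
    Sur w S := by
  obtain ⟨T, h1, h2, h3⟩ := h
  exact ⟨T, h1.trans hS, h2, h3⟩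

/-- more conditions -/
theorem Emp_emb {ι κ : Type} {w : ι → ℕ} {v : κ → ℕ} {S : Set (ℤ × ℤ)} (g : ι → κ)
    (hg : Function.Injective g) (hw : ∀ i, w i ≤ v (g i)) (h : Emp w S) : Emp v S := by
  obtain ⟨K, _, _, x, y, hx, hy, hf⟩ := h
  refine ⟨K, _, inferInstance, Function.extend g x 1, Function.extend g y 1, ?_, ?_, ?_⟩
  · intro j
    by_cases hj : ∃ i, g i = j
    · obtain ⟨i, rfl⟩ := hj
      rw [hg.extend_apply]; exact hx i
    · rw [Function.extend_apply' _ _ _ hj]; simp
  · intro j
    by_cases hj : ∃ i, g i = j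
    · obtain ⟨i, rfl⟩ := hj
      rw [hg.extend_apply]; exact hy i
    · rw [Function.extend_apply' _ _ _ hj]; simp
  · intro f hfS hfL
    refine hf f hfS fun i => ?_
    have h1 := hfL (g i)
    rw [hg.extend_apply, hg.extend_apply] at h1
    exact h1.mono (hw i)

section lin
variable {K : Type*} [Field K]

theorem pr_smul_left (c : K) (f : (ℤ × ℤ) →₀ K) (x y : K) (P : K × K → K) :
    pr (c • f) x y P = c * pr f x y P := by
  unfold pr
  rw [Finsupp.sum_smul_index (by simp), Finsupp.mul_sum]
  apply Finsupp.sum_congr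
  intro m _
  ring

theorem pr_add_left' (f g : (ℤ × ℤ) →₀ K) (x y : K) (P : K × K → K) :
    pr (f + g) x y P = pr f x y P + pr g x y P := by
  unfold pr
  exact Finsupp.sum_add_index' (by simp) (by intros; ring)

theorem LM_add {f g : (ℤ × ℤ) →₀ K} {x y : K} {w : ℕ} (hf : LM f x y w) (hg : LM g x y w) :
    LM (f + g) x y w := fun P hP => by
  rw [pr_add_left', hf P hP, hg P hP, add_zero]

theorem LM_smul {f : (ℤ × ℤ) →₀ K} {x y : K} {w : ℕ} (hf : LM f x y w) (c : K) :
    LM (c • f) x y w := fun P hP => by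
  rw [pr_smul_left, hf P hP, mul_zero]

/-- the value of a Laurent polynomial at a point of the torus -/
noncomputable def evp (f : (ℤ × ℤ) →₀ K) (x y : K) : K := f.sum fun m c => c * (x ^ m.1 * y ^ m.2)

theorem evp_eq (f : (ℤ × ℤ) →₀ K) (x y : K) : evp f x y = pr f x y (fun _ => 1) := by
  unfold evp pr
  apply Finsupp.sum_congr
  intro m _
  ring

theorem LM_one_iff {f : (ℤ × ℤ) →₀ K} {x y : K} : LM f x y 1 ↔ evp f x y = 0 := by
  rw [evp_eq]
  constructor
  · intro h
    exact h _ (PF_const 1 (by omega))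
  · intro h
    apply LM_of_mono
    intro a b hab
    have ha : a = 0 := by omega
    have hb : b = 0 := by omega
    subst ha hb
    simpa using h

theorem evp_add (f g : (ℤ × ℤ) →₀ K) (x y : K) : evp (f + g) x y = evp f x y + evp g x y := by
  rw [evp_eq, evp_eq, evp_eq, pr_add_left']

theorem evp_smul (c : K) (f : (ℤ × ℤ) →₀ K) (x y : K) : evp (c • f) x y = c * evp f x y := by
  rw [evp_eq, evp_eq, pr_smul_left]

/-- the character of exponent `m` of the torus -/
noncomputable def chi (K : Type*) [Field K] (m : ℤ × ℤ) : Kˣ × Kˣ →* K where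
  toFun u := ((u.1 ^ m.1 * u.2 ^ m.2 : Kˣ) : K)
  map_one' := by simp
  map_mul' u v := by
    simp only [Prod.fst_mul, Prod.snd_mul, mul_zpow, ← Units.val_mul]
    congr 1
    exact mul_mul_mul_comm _ _ _ _

theorem chi_inj [CharZero K] : Function.Injective (chi K) := by
  have h2 : (2 : K) ≠ 0 := two_ne_zero
  have key : ∀ a b : ℤ, (2 : K) ^ a = (2 : K) ^ b → a = b := by
    intro a b h
    have h1 : (2 : ℚ) ^ a = (2 : ℚ) ^ b := by
      have h3 : (algebraMap ℚ K) ((2 : ℚ) ^ a) = (algebraMap ℚ K) ((2 : ℚ) ^ b) := by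
        rw [map_zpow₀, map_zpow₀, map_ofNat]
        exact h
      exact (algebraMap ℚ K).injective h3
    exact zpow_right_injective₀ (by norm_num) (by norm_num) h1
  rintro ⟨a, b⟩ ⟨a', b'⟩ h
  have e1 := DFunLike.congr_fun h (Units.mk0 2 h2, 1)
  have e2 := DFunLike.congr_fun h (1, Units.mk0 2 h2)
  simp only [chi, MonoidHom.coe_mk, OneHom.coe_mk, one_zpow, mul_one, one_mul,
    Units.val_zpow_eq_zpow_val, Units.val_mk0] at e1 e2
  ext
  · exact key _ _ e1
  · exact key _ _ e2

/-- a nonzero Laurent polynomial does not vanish at some point of the torus -/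
theorem exists_evp_ne [CharZero K] {g : (ℤ × ℤ) →₀ K} (hg : g ≠ 0) :
    ∃ x y : K, x ≠ 0 ∧ y ≠ 0 ∧ evp g x y ≠ 0 := by
  by_contra hcon
  push Not at hcon
  apply hg
  have hli : LinearIndependent K (fun m : ℤ × ℤ => (chi K m : Kˣ × Kˣ → K)) :=
    (linearIndependent_monoidHom (Kˣ × Kˣ) K).comp (chi K) chi_inj
  rw [linearIndependent_iff] at hli
  apply hli
  rw [Finsupp.linearCombination_apply]
  funext u
  have h1 := hcon (u.1 : K) (u.2 : K) u.1.ne_zero u.2.ne_zero
  unfold evp at h1
  rw [Pi.zero_apply, ← h1, Finsupp.sum_apply']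
  apply Finsupp.sum_congr
  intro m _
  simp [chi]

end lin

section add
variable {ι : Type}

/-- one more exponent and one more simple point -/
theorem Emp_insert {w : ι → ℕ} {k : ℕ} {T : Set (ℤ × ℤ)} (m : ℤ × ℤ)
    (h : Emp (Sum.elim w (fun _ : Fin k => 1)) T) :
    Emp (Sum.elim w (fun _ : Fin (k + 1) => 1)) (insert m T) := by
  classical
  obtain ⟨K, _, _, x, y, hx, hy, hf⟩ := h
  -- choose the point
  obtain ⟨p, q, hp, hq, hpq⟩ : ∃ p q : K, p ≠ 0 ∧ q ≠ 0 ∧ ∀ g : (ℤ × ℤ) →₀ K,
      (↑g.support : Set (ℤ × ℤ)) ⊆ insert m T →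
      (∀ i, LM g (x i) (y i) (Sum.elim w (fun _ : Fin k => 1) i)) → evp g p q = 0 → g = 0 := by
    by_cases hg : ∃ g : (ℤ × ℤ) →₀ K, (↑g.support : Set (ℤ × ℤ)) ⊆ insert m T ∧
      (∀ i, LM g (x i) (y i) (Sum.elim w (fun _ : Fin k => 1) i)) ∧ g ≠ 0
    · obtain ⟨g, hgS, hgL, hg0⟩ := hg
      obtain ⟨p, q, hp, hq, hpq⟩ := exists_evp_ne hg0
      refine ⟨p, q, hp, hq, fun f hfS hfL hfe => ?_⟩
      have hgm : g m ≠ 0 := by
        intro h0
        apply hg0
        apply hf g _ hgL
        intro m' hm'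
        rcases hgS hm' with h1 | h1
        · subst h1
          exact absurd h0 (Finsupp.mem_support_iff.1 (mem_coe.1 hm'))
        · exact h1
      have h1 : g m • f + (-(f m)) • g = 0 := by
        apply hf
        · intro m' hm'
          have hne : (g m • f + (-(f m)) • g) m' ≠ 0 := Finsupp.mem_support_iff.1 (mem_coe.1 hm')
          have hmem : m' ∈ insert m T := by
            by_cases h2 : f m' = 0
            · apply hgS
              rw [mem_coe, Finsupp.mem_support_iff]
              intro h3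
              apply hne
              simp [h2, h3]
            · exact hfS (by rw [mem_coe, Finsupp.mem_support_iff]; exact h2)
          rcases hmem with h2 | h2
          · exfalso
            subst h2
            apply hne
            simp; ring
          · exact h2
        · intro i
          exact LM_add (LM_smul (hfL i) _) (LM_smul (hgL i) _)
      have h2 : evp (g m • f + (-(f m)) • g) p q = 0 := by rw [h1]; simp [evp]
      rw [evp_add, evp_smul, evp_smul, hfe, mul_zero, zero_add] at h2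
      have h3 : f m = 0 := by
        rcases mul_eq_zero.1 h2 with h4 | h4
        · exact neg_eq_zero.1 h4
        · exact absurd h4 hpq
      rw [h3, neg_zero, zero_smul, add_zero] at h1
      exact (smul_eq_zero.1 h1).resolve_left hgm
    · push Not at hg
      exact ⟨1, 1, one_ne_zero, one_ne_zero, fun g h1 h2 _ => hg g h1 h2⟩
  refine ⟨K, _, inferInstance,
    Sum.elim (fun i => x (Sum.inl i)) (Fin.snoc (fun j => x (Sum.inr j)) p),
    Sum.elim (fun i => y (Sum.inl i)) (Fin.snoc (fun j => y (Sum.inr j)) q), ?_, ?_, ?_⟩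
  · rintro (i | j)
    · exact hx _
    · refine Fin.lastCases ?_ (fun j => ?_) j
      · simpa using hp
      · simpa using hx (Sum.inr j)
  · rintro (i | j)
    · exact hy _
    · refine Fin.lastCases ?_ (fun j => ?_) j
      · simpa using hq
      · simpa using hy (Sum.inr j)
  · intro f hfS hfL
    refine hpq f hfS ?_ ?_
    · rintro (i | j)
      · exact hfL (Sum.inl i)
      · have := hfL (Sum.inr (Fin.castSucc j))
        simpa using this
    · have := hfL (Sum.inr (Fin.last k))
      simp only [Sum.elim_inr, Fin.snoc_last] at this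
      exact LM_one_iff.1 this

/-- one simple point less and one exponent less -/
theorem Emp_erase {w : ι → ℕ} {k : ℕ} {T : Finset (ℤ × ℤ)} (hT : T.Nonempty)
    (h : Emp (Sum.elim w (fun _ : Fin (k + 1) => 1)) (↑T : Set (ℤ × ℤ))) :
    ∃ m ∈ T, Emp (Sum.elim w (fun _ : Fin k => 1)) (↑(T.erase m) : Set (ℤ × ℤ)) := by
  classical
  obtain ⟨K, _, _, x, y, hx, hy, hf⟩ := h
  set x' : ι ⊕ Fin k → K := Sum.elim (fun i => x (Sum.inl i)) (fun j => x (Sum.inr (Fin.castSucc j))) with hx'
  set y' : ι ⊕ Fin k → K := Sum.elim (fun i => y (Sum.inl i)) (fun j => y (Sum.inr (Fin.castSucc j))) with hy'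
  set p := x (Sum.inr (Fin.last k)) with hp
  set q := y (Sum.inr (Fin.last k)) with hq
  have hx'0 : ∀ i, x' i ≠ 0 := by
    rintro (i | j)
    · exact hx _
    · exact hx _
  have hy'0 : ∀ i, y' i ≠ 0 := by
    rintro (i | j)
    · exact hy _
    · exact hy _
  have hf' : ∀ f : (ℤ × ℤ) →₀ K, (↑f.support : Set (ℤ × ℤ)) ⊆ ↑T →
      (∀ i, LM f (x' i) (y' i) (Sum.elim w (fun _ : Fin k => 1) i)) → evp f p q = 0 → f = 0 := by
    intro f h1 h2 h3
    apply hf f h1
    rintro (i | j)
    · exact h2 (Sum.inl i)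
    · refine Fin.lastCases ?_ (fun j => ?_) j
      · exact LM_one_iff.2 h3
      · exact h2 (Sum.inr j)
  by_cases hg : ∃ g : (ℤ × ℤ) →₀ K, (↑g.support : Set (ℤ × ℤ)) ⊆ ↑T ∧
      (∀ i, LM g (x' i) (y' i) (Sum.elim w (fun _ : Fin k => 1) i)) ∧ g ≠ 0
  · obtain ⟨g, hgS, hgL, hg0⟩ := hg
    have hge : evp g p q ≠ 0 := fun h0 => hg0 (hf' g hgS hgL h0)
    obtain ⟨m, hm⟩ := Finsupp.support_nonempty_iff.2 hg0
    have hgm := Finsupp.mem_support_iff.1 hm
    refine ⟨m, hgS hm, K, _, inferInstance, x', y', hx'0, hy'0, fun f hfS hfL => ?_⟩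
    have hfm : f m = 0 := by
      by_contra h0
      have h1 := hfS (mem_coe.2 (Finsupp.mem_support_iff.2 h0))
      rw [mem_coe] at h1
      exact (notMem_erase m T) h1
    have h1 : evp g p q • f + (-(evp f p q)) • g = 0 := by
      apply hf'
      · intro m' hm'
        have hne : (evp g p q • f + (-(evp f p q)) • g) m' ≠ 0 :=
          Finsupp.mem_support_iff.1 (mem_coe.1 hm')
        by_cases h2 : f m' = 0
        · apply hgS
          rw [mem_coe, Finsupp.mem_support_iff]
          intro h3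
          apply hne
          simp [h2, h3]
        · have h3 := hfS (mem_coe.2 (Finsupp.mem_support_iff.2 h2))
          rw [mem_coe] at h3 ⊢
          exact mem_of_mem_erase h3
      · intro i
        exact LM_add (LM_smul (hfL i) _) (LM_smul (hgL i) _)
      · rw [evp_add, evp_smul, evp_smul]; ring
    have h2 := DFunLike.congr_fun h1 m
    simp only [Finsupp.coe_add, Finsupp.coe_smul, Pi.add_apply, Pi.smul_apply, smul_eq_mul, hfm,
      mul_zero, zero_add, Finsupp.coe_zero, Pi.zero_apply] at h2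
    have h3 : evp f p q = 0 := by
      rcases mul_eq_zero.1 h2 with h4 | h4
      · exact neg_eq_zero.1 h4
      · exact absurd h4 hgm
    refine hf' f (fun m' hm' => ?_) hfL h3
    have h4 := hfS hm'
    rw [mem_coe] at h4 ⊢
    exact mem_of_mem_erase h4
  · push Not at hg
    obtain ⟨m, hm⟩ := hT
    refine ⟨m, hm, K, _, inferInstance, x', y', hx'0, hy'0, fun f hfS hfL => ?_⟩
    apply hg f _ hfL
    intro m' hm'
    have h4 := hfS hm'
    rw [mem_coe] at h4 ⊢
    exact mem_of_mem_erase h4

theorem Emp_zero_iff {w : ι → ℕ} {S : Set (ℤ × ℤ)} :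
    Emp (Sum.elim w (fun _ : Fin 0 => 1)) S ↔ Emp w S := by
  constructor
  · intro h
    refine Emp_emb (fun s : ι ⊕ Fin 0 => Sum.elim id (fun j => Fin.elim0 j) s) ?_ ?_ h
    · rintro (i | i) (j | j) h
      · simpa using h
      · exact Fin.elim0 j
      · exact Fin.elim0 i
      · exact Fin.elim0 i
    · rintro (i | i)
      · simp
      · exact Fin.elim0 i
  · intro h
    exact Emp_emb Sum.inl Sum.inl_injective (fun i => le_rfl) h

/-- adding exponents and as many simple points -/
theorem Emp_union {w : ι → ℕ} {T : Finset (ℤ × ℤ)} (h : Emp w (↑T : Set (ℤ × ℤ))) (U : Finset (ℤ × ℤ)) :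
    Emp (Sum.elim w (fun _ : Fin U.card => 1)) (↑(T ∪ U) : Set (ℤ × ℤ)) := by
  classical
  induction U using Finset.induction_on with
  | empty => rw [card_empty, Emp_zero_iff, union_empty]; exact h
  | insert a U ha ih =>
    rw [card_insert_of_notMem ha]
    have h1 := Emp_insert a ih
    refine h1.mono ?_
    rw [union_insert]
    push_cast
    exact subset_rfl

variable [Fintype ι]

/-- from emptiness with simple points to independence -/
theorem Sur_of_Emp {w : ι → ℕ} (k : ℕ) : ∀ {T : Finset (ℤ × ℤ)}, cond w + k ≤ T.card →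
    Emp (Sum.elim w (fun _ : Fin k => 1)) (↑T : Set (ℤ × ℤ)) → Sur w (↑T : Set (ℤ × ℤ)) := by
  classical
  induction k with
  | zero =>
    intro T hT h
    rw [Emp_zero_iff] at h
    obtain ⟨T0, h1, h2⟩ := exists_subset_card_eq (s := T) (n := cond w) (by omega)
    exact ⟨T0, by exact_mod_cast h1, h2, h.mono (by exact_mod_cast h1)⟩
  | succ k ih =>
    intro T hT h
    obtain ⟨m, hm, h1⟩ := Emp_erase (card_pos.1 (by omega)) h
    refine (ih ?_ h1).mono ?_
    · rw [card_erase_of_mem hm]; omega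
    · rw [coe_erase]; exact Set.sdiff_subset

/-- a transfer of emptiness for all weights gives a transfer of independence -/
theorem Sur.transfer {w : ι → ℕ} {S S' : Finset (ℤ × ℤ)} (hc : S'.card ≤ S.card)
    (h : ∀ (κ : Type) (v : κ → ℕ), Emp v (↑S' : Set (ℤ × ℤ)) → Emp v (↑S : Set (ℤ × ℤ)))
    (h' : Sur w (↑S' : Set (ℤ × ℤ))) : Sur w (↑S : Set (ℤ × ℤ)) := by
  classical
  obtain ⟨T, h1, h2, h3⟩ := h'
  have h1' : T ⊆ S' := by exact_mod_cast h1
  have h4 := Emp_union h3 (S' \ T)
  rw [union_sdiff_of_subset h1'] at h4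
  refine Sur_of_Emp (S' \ T).card ?_ (h _ _ h4)
  rw [card_sdiff_of_subset h1', ← h2]
  have := card_le_card h1'
  omega

end add

end Pool.Agent.TH603.Sur
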