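import Pool.Agent.TH176.Nag.Stair3

/-! The degeneration of the weighted plane `P(1, 1, N - 2)` to the charts, for all degrees `E`
(not only multiples of `N - 2`), and the count of the exponents. -/

namespace Pool.Agent.TH603.Sur

open Finset Pool.Agent.TH176.Nag

/-- exponents of the chart polygon in degree `E` -/
def S3z (N t : ℕ) (E : ℤ) : Set (ℤ × ℤ) :=
  {m | ∃ l : ℤ, 0 ≤ l ∧ N * l + m.1 * gs N t + m.2 * gs N (t + 1) = E ∧
    0 ≤ m.1 * gs N (t + 1) + l ∧ 0 ≤ m.2 * gs N t + l}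

/-- exponents of the weighted plane in degree `E` -/
def WPz (N : ℕ) (E : ℤ) : Set (ℤ × ℤ) :=
  {m | 0 ≤ m.1 ∧ 0 ≤ m.2 ∧ m.1 + (N - 2) * m.2 ≤ E}

/-- the pullback to Laurent polynomials of the chart -/
noncomputable def pbz {K : Type*} [Field K] (N t e : ℕ) (f : (ℤ × ℤ) →₀ K) : Lau K :=
  f.sum fun m c => c • (s0 N t (zL K N) ^ (e - m.1.toNat - (N - 2) * m.2.toNat) *
      s1 N t (zL K N) ^ m.1.toNat * s2 N t (zL K N) ^ m.2.toNat)

theorem pbz_Dg {K : Type*} [Field K] [CharZero K] {N : ℕ} (hN : 3 ≤ N) (t e : ℕ) {f : (ℤ × ℤ) →₀ K}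
    (hf : (↑f.support : Set (ℤ × ℤ)) ⊆ WPz N e) :
    Dg N (gs N t) (gs N (t + 1)) e (pbz N t e f) := by
  unfold pbz Finsupp.sum
  apply Dg.sum
  intro m hm
  apply Dg.smul
  obtain ⟨h1, h2, h3⟩ := hf hm
  obtain ⟨a, ha⟩ := Int.eq_ofNat_of_zero_le h1
  obtain ⟨b, hb⟩ := Int.eq_ofNat_of_zero_le h2
  obtain ⟨M, rfl⟩ : ∃ M, N = M + 2 := ⟨N - 2, by omega⟩
  have e1 : m.1.toNat = a := by omega
  have e2 : m.2.toNat = b := by omega
  rw [e1, e2]
  simp only [Nat.add_sub_cancel]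
  have h4 : a + M * b ≤ e := by
    rw [ha, hb] at h3
    push_cast at h3
    have : (a : ℤ) + M * b ≤ e := by linarith
    exact_mod_cast this
  have d0 : Dg ((M + 2 : ℕ) : ℤ) (gs ((M + 2 : ℕ) : ℤ) t) (gs ((M + 2 : ℕ) : ℤ) (t + 1)) 1
    (s0 (M + 2) t (zL K (M + 2))) := fun m hm => Pool.Agent.TH819.NagD.supp_s0 hN t m hm
  have d1 : Dg ((M + 2 : ℕ) : ℤ) (gs ((M + 2 : ℕ) : ℤ) t) (gs ((M + 2 : ℕ) : ℤ) (t + 1)) 1
    (s1 (M + 2) t (zL K (M + 2))) := fun m hm => Pool.Agent.TH819.NagD.supp_s1 hN t m hm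
  have d2 : Dg ((M + 2 : ℕ) : ℤ) (gs ((M + 2 : ℕ) : ℤ) t) (gs ((M + 2 : ℕ) : ℤ) (t + 1)) (((M + 2 : ℕ) : ℤ) - 2)
    (s2 (M + 2) t (zL K (M + 2))) := fun m hm => Pool.Agent.TH819.NagD.supp_s2 hN t m hm
  have h5 := ((d0.pow (e - a - M * b)).mul (d1.pow a)).mul (d2.pow b)
  have e3 : ((e - a - M * b : ℕ) : ℤ) = e - a - M * b := by
    have : e - a - M * b = e - (a + M * b) := by omega
    rw [this, Nat.cast_sub h4]; push_cast; ring
  have e4 : ((e - a - M * b : ℕ) : ℤ) * 1 + (a : ℤ) * 1 + (b : ℤ) * (((M + 2 : ℕ) : ℤ) - 2) =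
      e := by
    rw [e3]; push_cast; ring
  rw [e4] at h5
  exact h5

theorem pbz_adjoin {K : Type*} [Field K] (N t e : ℕ) (f : (ℤ × ℤ) →₀ K) :
    pbz N t e f ∈ Algebra.adjoin K {(zL K N).1, (zL K N).2.1, (zL K N).2.2.1, (zL K N).2.2.2} := by
  set A := Algebra.adjoin K {(zL K N).1, (zL K N).2.1, (zL K N).2.2.1, (zL K N).2.2.2} with hA
  have h0 : (zL K N).1 ∈ A ∧ (zL K N).2.1 ∈ A ∧ (zL K N).2.2.1 ∈ A ∧ (zL K N).2.2.2 ∈ A :=
    ⟨Algebra.subset_adjoin (by simp), Algebra.subset_adjoin (by simp),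
      Algebra.subset_adjoin (by simp), Algebra.subset_adjoin (by simp)⟩
  have h1 : ∀ t, ((stp N)^[t] (zL K N)).1 ∈ A ∧ ((stp N)^[t] (zL K N)).2.1 ∈ A ∧
      ((stp N)^[t] (zL K N)).2.2.1 ∈ A ∧ ((stp N)^[t] (zL K N)).2.2.2 ∈ A := by
    intro t
    induction t with
    | zero => exact h0
    | succ t ih =>
      rw [Function.iterate_succ_apply']
      obtain ⟨a, b, c, d⟩ := ih
      refine ⟨?_, a, b, c⟩
      refine A.sub_mem (A.mul_mem (A.pow_mem a N) d) ?_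
      unfold pN
      apply A.sum_mem
      intro s _
      exact A.mul_mem (A.natCast_mem _) (A.pow_mem b _)
  obtain ⟨a, b, c, d⟩ := h1 t
  unfold pbz Finsupp.sum
  apply A.sum_mem
  intro m _
  apply A.smul_mem
  refine A.mul_mem (A.mul_mem (A.pow_mem b _) (A.pow_mem c _)) (A.pow_mem ?_ _)
  exact A.sub_mem (A.mul_mem a d) (A.pow_mem (A.mul_mem b c) _)

theorem Emp_chartz {ι : Type} {w : ι → ℕ} {N : ℕ} (hN : 3 ≤ N) (t e : ℕ)
    (h : Emp w (S3z N (t + 2) e)) : Emp w (WPz N e) := by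
  obtain ⟨K, _, _, x, y, hx, hy, hf⟩ := h
  have hx' : ∀ i, tv K * cst (x i) ≠ 0 := fun i => (order_cst (hx i)).1
  have hy' : ∀ i, tv K * cst (y i) ≠ 0 := fun i => (order_cst (hy i)).1
  let z : ι → LaurentSeries K × LaurentSeries K × LaurentSeries K × LaurentSeries K :=
    fun i => zK N (tv K * cst (x i)) (tv K * cst (y i))
  have hne : ∀ i, s0 N (t + 2) (z i) ≠ 0 ∧ s1 N (t + 2) (z i) ≠ 0 ∧ s2 N (t + 2) (z i) ≠ 0 :=
    fun i => s012_ne hN (hx i) (hy i) t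
  refine ⟨LaurentSeries K, inferInstance, inferInstance,
    fun i => s1 N (t + 2) (z i) / s0 N (t + 2) (z i),
    fun i => s2 N (t + 2) (z i) / s0 N (t + 2) (z i) ^ (N - 2),
    fun i => div_ne_zero (hne i).2.1 (hne i).1,
    fun i => div_ne_zero (hne i).2.2 (pow_ne_zero _ (hne i).1), ?_⟩
  intro f hfS hfL
  by_contra hf0
  -- the support in natural form
  have hsup : ∀ m ∈ f.support, 0 ≤ m.1 ∧ 0 ≤ m.2 ∧ m.1 + ((N - 2 : ℕ) : ℤ) * m.2 ≤ ((e : ℕ) : ℤ) := by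
    intro m hm
    obtain ⟨h1, h2, h3⟩ := hfS hm
    refine ⟨h1, h2, ?_⟩
    obtain ⟨M, rfl⟩ : ∃ M, N = M + 2 := ⟨N - 2, by omega⟩
    simp only [Nat.add_sub_cancel]
    push_cast at h3 ⊢
    linarith
  have hg0 : pbz N (t + 2) e f ≠ 0 := by
    intro h
    exact hf0 (Pool.Agent.TH543.NagJ.comp_inj hN (t + 2) hsup h)
  have hLM : ∀ i, LM (pbz N (t + 2) e f).coeff (tv K * cst (x i)) (tv K * cst (y i)) (w i) := by
    intro i
    refine Pool.Agent.TH671.NagI1.LM_of_mem_ker_pow (hx' i) (hy' i)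
      (evL _ _ (hx' i) (hy' i)) (evL_mon _ _ (hx' i) (hy' i)) ?_
    have ez := evL_zL (tv K * cst (x i)) (tv K * cst (y i)) (hx' i) (hy' i) N
    have m0 := map_s0 (evL _ _ (hx' i) (hy' i) : Lau (LaurentSeries K) →+* LaurentSeries K) N (t + 2) (zL _ N)
    have m1 := map_s1 (evL _ _ (hx' i) (hy' i) : Lau (LaurentSeries K) →+* LaurentSeries K) N (t + 2) (zL _ N)
    have m2 := map_s2 (evL _ _ (hx' i) (hy' i) : Lau (LaurentSeries K) →+* LaurentSeries K) N (t + 2) (zL _ N)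
    have m0' : evL _ _ (hx' i) (hy' i) (s0 N (t + 2) (zL _ N)) = s0 N (t + 2) (z i) := by
      rw [show z i = zK N (tv K * cst (x i)) (tv K * cst (y i)) from rfl, ← ez]; exact m0.symm
    have m1' : evL _ _ (hx' i) (hy' i) (s1 N (t + 2) (zL _ N)) = s1 N (t + 2) (z i) := by
      rw [show z i = zK N (tv K * cst (x i)) (tv K * cst (y i)) from rfl, ← ez]; exact m1.symm
    have m2' : evL _ _ (hx' i) (hy' i) (s2 N (t + 2) (zL _ N)) = s2 N (t + 2) (z i) := by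
      rw [show z i = zK N (tv K * cst (x i)) (tv K * cst (y i)) from rfl, ← ez]; exact m2.symm
    refine Pool.Agent.TH698.mem_ker_pow_comp (div_ne_zero (hne i).2.1 (hne i).1)
      (div_ne_zero (hne i).2.2 (pow_ne_zero _ (hne i).1)) (evL _ _ (hx' i) (hy' i)) ?_ ?_ ?_ hsup (hfL i)
    · rw [m0']; exact (hne i).1
    · rw [m0', m1', div_mul_cancel₀ _ (hne i).1]
    · rw [m0', m2', div_mul_cancel₀ _ (pow_ne_zero _ (hne i).1)]
  set g := pbz N (t + 2) e f with hg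
  have hDg := pbz_Dg hN (t + 2) e hfS
  rw [← hg] at hDg
  have hadj := pbz_adjoin N (t + 2) e f
  rw [← hg] at hadj
  have hgc : g.coeff ≠ 0 := by
    intro h
    apply hg0
    ext m
    rw [h]; rfl
  have hsc : scl g.coeff ≠ 0 := by
    intro h
    apply hgc
    rw [← Finsupp.support_eq_empty, ← scl_support, h, Finsupp.support_zero]
  obtain ⟨n, hn1, hn2, hn3⟩ := exists_lead hsc
  apply hn1
  apply hf
  · intro m hm
    have hm' : (scl g.coeff m).coeff n ≠ 0 := by simpa using hm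
    obtain ⟨h1, h2⟩ := hn3 m hm'
    have h3 : m ∈ g.coeff.support := by
      rw [← scl_support]; exact Finsupp.mem_support_iff.2 h1
    have h3' := Finsupp.mem_support_iff.1 h3
    obtain ⟨h4, l, hl⟩ := hDg m h3
    have hN' : (3 : ℤ) ≤ N := by exact_mod_cast hN
    have hl0 : 0 ≤ l := by
      have : (0 : ℤ) ≤ N * l := by rw [← hl]; linarith
      nlinarith
    have hmin : ∀ m' ∈ g.coeff.support, (g.coeff m).order + (m.1 + m.2) ≤
        (g.coeff m').order + (m'.1 + m'.2) := by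
      intro m' hm''
      rw [← scl_order h3', ← scl_order (Finsupp.mem_support_iff.1 hm''), h2]
      by_contra hlt
      have h5 := hn2 m' _ (not_le.1 hlt)
      have h6 : scl g.coeff m' ≠ 0 := by
        rw [← Finsupp.mem_support_iff, scl_support]; exact hm''
      exact h6 (HahnSeries.coeff_order_eq_zero.1 h5)
    have hg1 := gs_pos hN' (t + 2)
    have hg2 := gs_pos hN' (t + 2 + 1)
    refine ⟨l, hl0, by linarith, ?_, ?_⟩
    · rcases le_or_gt 0 m.1 with h7 | h7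
      · positivity
      · obtain ⟨j, hj1, hj2⟩ := Pool.Agent.TH494.NagG.lowest_left (by omega) g hadj m h3' h7 hmin
        obtain ⟨h8, -⟩ := hDg (m.1, j) (Finsupp.mem_support_iff.2 hj2)
        simp only at h8
        have h9 : (m.2 - N * m.1) * gs N (t + 2 + 1) ≤ j * gs N (t + 2 + 1) :=
          mul_le_mul_of_nonneg_right hj1 hg2.le
        have h10 : 0 ≤ (N : ℤ) * (m.1 * gs N (t + 2 + 1) + l) := by nlinarith
        exact nonneg_of_mul_nonneg_right h10 (by omega)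
    · rcases le_or_gt 0 m.2 with h7 | h7
      · positivity
      · obtain ⟨j, hj1, hj2⟩ := Pool.Agent.TH494.NagG.lowest_right (by omega) g hadj m h3' h7 hmin
        obtain ⟨h8, -⟩ := hDg (j, m.2) (Finsupp.mem_support_iff.2 hj2)
        simp only at h8
        have h9 : (m.1 - N * m.2) * gs N (t + 2) ≤ j * gs N (t + 2) :=
          mul_le_mul_of_nonneg_right hj1 hg1.le
        have h10 : 0 ≤ (N : ℤ) * (m.2 * gs N (t + 2) + l) := by nlinarith
        exact nonneg_of_mul_nonneg_right h10 (by omega)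
  · intro i
    exact LM_coeff (LM_scl (hLM i)) n

/-- the triangle in lattice coordinates -/
def Q3z (N t : ℕ) (E : ℤ) : Set (ℤ × ℤ) :=
  {p | 0 ≤ p.2 ∧ p.2 ≤ (N - 2) * p.1 + E ∧
    ((N - 2) * p.1 + E) * gs N t ^ 2 + p.2 * (gs N (t + 1) ^ 2 - gs N t ^ 2) ≤
      E * (gs N t * gs N (t + 1))}

/-- the data of the affine map from the triangle to the chart polygon -/
structure Aff (N t : ℕ) (g0 g1 g2 a b c f1 f2 : ℤ) : Prop where
  h0 : g0 = gs N (t + 1)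
  h1 : g1 = gs N (t + 2)
  h2 : g2 = gs N (t + 3)
  hc : g0 - 1 = (N - 2) * c
  ha : g1 - 1 = (N - 2) * a
  hb : g2 - 1 = (N - 2) * b
  hf1 : g2 - g0 = (N - 2) * f1
  hf2 : N * g2 - g1 - g1 = (N - 2) * f2
  hrec : g2 = N * g1 - g0
  hmk : g1 ^ 2 + g2 ^ 2 + (N - 2) = N * g1 * g2
  hdet : g0 * f2 - f1 * g1 = N

theorem exists_aff {N : ℕ} (hN : 3 ≤ N) (t : ℕ) : ∃ g0 g1 g2 a b c f1 f2 : ℤ,
    Aff N t g0 g1 g2 a b c f1 f2 := by
  have hN' : (3 : ℤ) ≤ N := by exact_mod_cast hN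
  obtain ⟨c, hc⟩ := (gs_mod (N := (N : ℤ)) (t + 1)).1
  obtain ⟨a, ha⟩ := (gs_mod (N := (N : ℤ)) (t + 2)).1
  obtain ⟨b, hb⟩ := (gs_mod (N := (N : ℤ)) (t + 2)).2
  have hrec1 : gs N (t + 1 + 2) = N * gs N (t + 1 + 1) - gs N (t + 1) := gs_two (t + 1)
  have hmk := gs_markov (N := (N : ℤ)) (t + 2)
  refine ⟨gs N (t + 1), gs N (t + 2), gs N (t + 3), a, b, c, b - c, N * b + 1 - 2 * a,
    rfl, rfl, rfl, hc, ha, hb, ?_, ?_, hrec1, hmk, ?_⟩
  · have hb' : gs N (t + 3) - 1 = (N - 2) * b := hb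
    linear_combination hb' - hc
  · have hb' : gs N (t + 3) - 1 = (N - 2) * b := hb
    linear_combination (N : ℤ) * hb' - 2 * ha
  · have hb' : gs N (t + 3) - 1 = (N - 2) * b := hb
    have hM : (0 : ℤ) < N - 2 := by omega
    have hrec1' : gs N (t + 3) = N * gs N (t + 2) - gs N (t + 1) := hrec1
    have hmk' : gs N (t + 2) ^ 2 + gs N (t + 3) ^ 2 + (N - 2) = N * gs N (t + 2) * gs N (t + 3) := hmk
    set g0 := gs N (t + 1)
    set g1 := gs N (t + 2)
    set g2 := gs N (t + 3)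
    have hp1 : g0 * g2 = g1 ^ 2 + (N - 2) := by rw [hrec1']; rw [hrec1'] at hmk'; linear_combination -hmk'
    have hf1 : g2 - g0 = (N - 2) * (b - c) := by linear_combination hb' - hc
    have hf2 : N * g2 - g1 - g1 = (N - 2) * (N * b + 1 - 2 * a) := by
      linear_combination (N : ℤ) * hb' - 2 * ha
    have : (N - 2 : ℤ) * (g0 * (N * b + 1 - 2 * a) - (b - c) * g1) = (N - 2) * N := by
      linear_combination -g0 * hf2 + g1 * hf1 + N * hp1 - g1 * hrec1'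
    exact mul_left_cancel₀ hM.ne' this

/-- the affine map between the lattice triangle and the chart polygon -/
theorem Q3z_iff {N : ℕ} (hN : 3 ≤ N) {t : ℕ} {g0 g1 g2 a b c f1 f2 : ℤ}
    (h : Aff N t g0 g1 g2 a b c f1 f2) (E : ℤ) (p : ℤ × ℤ) :
    (g0 * p.1 + f1 * p.2 + -(E * (a - c)), g1 * p.1 + f2 * p.2 + -(E * (b - a))) ∈ S3z N (t + 2) E ↔
      p ∈ Q3z N (t + 2) E := by
  have hN' : (3 : ℤ) ≤ N := by exact_mod_cast hN
  have hM : (0 : ℤ) < N - 2 := by omega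
  have e1 : gs N (t + 2) = g1 := h.h1.symm
  have e2 : gs N (t + 2 + 1) = g2 := h.h2.symm
  have hg1 : 0 < g1 := by rw [← e1]; exact gs_pos hN' _
  have hg2 : 0 < g2 := by rw [← e2]; exact gs_pos hN' _
  have hc := h.hc
  have ha := h.ha
  have hb := h.hb
  have hf1 := h.hf1
  have hf2 := h.hf2
  have hrec := h.hrec
  have hmk := h.hmk
  have hdet := h.hdet
  have hp1 : g0 * g2 = g1 ^ 2 + (N - 2) := by rw [hrec]; rw [hrec] at hmk; linear_combination -hmk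
  unfold S3z Q3z
  simp only [Set.mem_ofPred_eq]
  rw [e1, e2]
  obtain ⟨X, hX⟩ : ∃ X, X = (N - 2) * p.1 + E := ⟨_, rfl⟩
  obtain ⟨Y, hY⟩ : ∃ Y, Y = p.2 := ⟨_, rfl⟩
  obtain ⟨m1, hm1⟩ : ∃ m1, m1 = g0 * p.1 + f1 * p.2 + -(E * (a - c)) := ⟨_, rfl⟩
  obtain ⟨m2, hm2⟩ : ∃ m2, m2 = g1 * p.1 + f2 * p.2 + -(E * (b - a)) := ⟨_, rfl⟩
  rw [← hm1, ← hm2]
  -- (N-2) m1 and (N-2) m2
  have k1 : (N - 2 : ℤ) * m1 = g0 * X + (g2 - g0) * Y - E * g1 := by
    rw [hm1, hX, hY]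
    linear_combination (-p.2) * hf1 + E * ha - E * hc
  have k2 : (N - 2 : ℤ) * m2 = g1 * X + (N * g2 - g1 - g1) * Y - E * g2 := by
    rw [hm2, hX, hY]
    linear_combination (-p.2) * hf2 + E * hb - E * ha
  -- the value of l
  have k4 : (N - 2 : ℤ) * (E - m1 * g1 - m2 * g2) =
      N * (E * (g1 * g2) - X * g1 ^ 2 - Y * (g2 ^ 2 - g1 ^ 2)) := by
    have : (N - 2 : ℤ) * (E - m1 * g1 - m2 * g2) = (N - 2) * E - g1 * ((N - 2) * m1) - g2 * ((N - 2) * m2) := by ring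
    rw [this, k1, k2]
    have hr0 : g0 = N * g1 - g2 := by linear_combination hrec
    rw [hr0]
    linear_combination E * hmk
  constructor
  · rintro ⟨l, hl0, hl1, hl2, hl3⟩
    have q0 : (N - 2 : ℤ) * l = E * (g1 * g2) - X * g1 ^ 2 - Y * (g2 ^ 2 - g1 ^ 2) := by
      have : (N : ℤ) * ((N - 2) * l) = N * (E * (g1 * g2) - X * g1 ^ 2 - Y * (g2 ^ 2 - g1 ^ 2)) := by
        rw [← k4]; linear_combination (N - 2 : ℤ) * hl1
      exact mul_left_cancel₀ (by omega) this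
    have q1 : m2 * g1 + l = Y := by
      have : (N - 2 : ℤ) * (m2 * g1 + l) = (N - 2) * Y := by
        have : (N - 2 : ℤ) * (m2 * g1 + l) = g1 * ((N - 2) * m2) + (N - 2) * l := by ring
        rw [this, k2, q0]
        linear_combination (-Y) * hmk
      exact mul_left_cancel₀ hM.ne' this
    have q2 : m1 * g2 + l = X - Y := by
      have : (N - 2 : ℤ) * (m1 * g2 + l) = (N - 2) * (X - Y) := by
        have : (N - 2 : ℤ) * (m1 * g2 + l) = g2 * ((N - 2) * m1) + (N - 2) * l := by ring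
        rw [this, k1, q0]
        linear_combination (X - Y) * hp1
      exact mul_left_cancel₀ hM.ne' this
    refine ⟨by rw [← hY]; linarith, by rw [← hX, ← hY]; linarith, ?_⟩
    rw [← hX, ← hY]
    nlinarith
  · rintro ⟨h1, h2, h3⟩
    rw [← hY] at h1
    rw [← hX, ← hY] at h2 h3
    -- l is an integer
    obtain ⟨l, hl⟩ : ∃ l : ℤ, l = Y - m2 * g1 := ⟨_, rfl⟩
    have q0 : (N - 2 : ℤ) * l = E * (g1 * g2) - X * g1 ^ 2 - Y * (g2 ^ 2 - g1 ^ 2) := by
      have : (N - 2 : ℤ) * l = (N - 2) * Y - g1 * ((N - 2) * m2) := by rw [hl]; ring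
      rw [this, k2]
      linear_combination Y * hmk
    have q2 : m1 * g2 + l = X - Y := by
      have : (N - 2 : ℤ) * (m1 * g2 + l) = (N - 2) * (X - Y) := by
        have : (N - 2 : ℤ) * (m1 * g2 + l) = g2 * ((N - 2) * m1) + (N - 2) * l := by ring
        rw [this, k1, q0]
        linear_combination (X - Y) * hp1
      exact mul_left_cancel₀ hM.ne' this
    refine ⟨l, ?_, ?_, by linarith, by rw [hl]; linarith⟩
    · have : 0 ≤ (N - 2 : ℤ) * l := by rw [q0]; linarith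
      exact nonneg_of_mul_nonneg_right this hM
    · have : (N - 2 : ℤ) * (N * l + m1 * g1 + m2 * g2) = (N - 2) * E := by
        have : (N - 2 : ℤ) * (N * l + m1 * g1 + m2 * g2) = N * ((N - 2) * l) -
          (N - 2) * (E - m1 * g1 - m2 * g2) + (N - 2) * E := by ring
        rw [this, k4, q0]; ring
      exact mul_left_cancel₀ hM.ne' this

end Pool.Agent.TH603.Sur
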