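import Pool.Agent.TH603.Sur.Basic

/-! Flattening for independence. -/

namespace Pool.Agent.TH603.Sur

open Finset Pool.Agent.TH176.Nag

theorem ppos {a b : ℝ} (h : 0 < a * b) (ha : 0 ≤ a) : 0 < b :=
  lt_of_not_ge fun hb => (not_lt.2 (mul_nonpos_of_nonneg_of_nonpos ha hb)) h

variable {ι : Type} [Fintype ι] {w : ι → ℕ}

/-- integral affine changes of exponents -/
theorem Sur.comap {S S' : Set (ℤ × ℤ)} (h : Sur w S') (a b c d u v : ℤ) (hdet : a * d - b * c ≠ 0)
    (hS : ∀ m' ∈ S', ∃ m ∈ S, (a * m.1 + b * m.2 + u, c * m.1 + d * m.2 + v) = m') : Sur w S := by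
  classical
  obtain ⟨T, h1, h2, h3⟩ := h
  have h4 : ∀ m' : ℤ × ℤ, ∃ m : ℤ × ℤ, m' ∈ T → m ∈ S ∧
      (a * m.1 + b * m.2 + u, c * m.1 + d * m.2 + v) = m' := by
    intro m'
    by_cases hm : m' ∈ T
    · obtain ⟨m, hm1, hm2⟩ := hS m' (h1 (mem_coe.2 hm))
      exact ⟨m, fun _ => ⟨hm1, hm2⟩⟩
    · exact ⟨0, fun h => absurd h hm⟩
  choose ψ hψ using h4
  refine ⟨T.image ψ, ?_, ?_, ?_⟩
  · intro m hm
    rw [mem_coe, mem_image] at hm
    obtain ⟨m', hm', rfl⟩ := hm
    exact (hψ m' hm').1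
  · rw [card_image_of_injOn, h2]
    intro m hm m' hm' he
    rw [mem_coe] at hm hm'
    rw [← (hψ m hm).2, ← (hψ m' hm').2, he]
  · refine h3.comap a b c d u v hdet ?_
    intro m hm
    rw [mem_coe, mem_image] at hm
    obtain ⟨m', hm', rfl⟩ := hm
    rw [(hψ m' hm').2]
    exact mem_coe.2 hm'

/-- translations -/
theorem Sur.shift {S S' : Set (ℤ × ℤ)} (h : Sur w S') (u v : ℤ)
    (hS : ∀ m' ∈ S', (m'.1 - u, m'.2 - v) ∈ S) : Sur w S := by
  refine h.comap 1 0 0 1 u v (by norm_num) fun m' hm' => ⟨_, hS m' hm', ?_⟩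
  ext <;> simp

/-- the flattening lemma for the covector `(1, 0)` -/
theorem Sur_flat0 {S S' : Set (ℤ × ℤ)}
    (hS : ∀ p ∈ S', 0 ≤ p.2 ∧ ∃ B : Finset ℤ, p.2 < B.card ∧ ∀ b ∈ B, ((p.1, b) : ℤ × ℤ) ∈ S)
    (h : Sur w S') : Sur w S := by
  classical
  obtain ⟨T, h1, h2, h3⟩ := h
  have h4 : ∀ p : ℤ × ℤ, ∃ B : Finset ℤ, p ∈ T → 0 ≤ p.2 ∧ p.2 < B.card ∧
      ∀ b ∈ B, ((p.1, b) : ℤ × ℤ) ∈ S := by
    intro p
    by_cases hp : p ∈ T
    · obtain ⟨h5, B, h6, h7⟩ := hS p (h1 (mem_coe.2 hp))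
      exact ⟨B, fun _ => ⟨h5, h6, h7⟩⟩
    · exact ⟨∅, fun h => absurd h hp⟩
  choose B hB using h4
  -- the union of the fibres over `a`
  let C : ℤ → Finset ℤ := fun a => (T.filter (fun p => p.1 = a)).biUnion B
  let A : Finset ℤ := T.image Prod.fst
  let S1 : Finset (ℤ × ℤ) := A.biUnion fun a => (C a).image fun b => (a, b)
  let S2 : Finset (ℤ × ℤ) := A.biUnion fun a => (range (C a).card).image fun k : ℕ => ((a, (k : ℤ)) : ℤ × ℤ)
  have hC : ∀ a, ∀ b ∈ C a, ((a, b) : ℤ × ℤ) ∈ S := by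
    intro a b hb
    simp only [C, mem_biUnion, mem_filter] at hb
    obtain ⟨p, ⟨hp, hpa⟩, hb⟩ := hb
    rw [← hpa]
    exact (hB p hp).2.2 b hb
  have hS1 : ∀ a b, (a, b) ∈ S1 ↔ a ∈ A ∧ b ∈ C a := by
    intro a b
    simp only [S1, mem_biUnion, mem_image, Prod.mk.injEq]
    constructor
    · rintro ⟨a', ha', b', hb', rfl, rfl⟩
      exact ⟨ha', hb'⟩
    · rintro ⟨ha, hb⟩
      exact ⟨a, ha, b, hb, rfl, rfl⟩
  have hcard : S2.card ≤ S1.card := by
    have e1 : S1.card = ∑ a ∈ A, (C a).card := by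
      rw [card_biUnion]
      · apply sum_congr rfl
        intro a _
        rw [card_image_of_injective]
        intro b b' h
        exact (Prod.mk.inj h).2
      · intro a _ a' _ hne
        rw [Function.onFun, disjoint_left]
        intro m hm hm'
        rw [mem_image] at hm hm'
        obtain ⟨b, _, rfl⟩ := hm
        obtain ⟨b', _, h⟩ := hm'
        exact hne (Prod.mk.inj h).1.symm
    rw [e1]
    refine card_biUnion_le.trans (sum_le_sum fun a _ => ?_)
    refine card_image_le.trans ?_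
    rw [card_range]
  have hT2 : Sur w (↑S2 : Set (ℤ × ℤ)) := by
    refine ⟨T, ?_, h2, h3⟩
    intro p hp
    rw [mem_coe] at hp ⊢
    simp only [S2, mem_biUnion, mem_image, mem_range]
    obtain ⟨h5, h6, h7⟩ := hB p hp
    refine ⟨p.1, mem_image_of_mem _ hp, p.2.toNat, ?_, ?_⟩
    · have h8 : (B p).card ≤ (C p.1).card := card_le_card (by
        intro b hb
        simp only [C, mem_biUnion, mem_filter]
        exact ⟨p, ⟨hp, rfl⟩, hb⟩)
      omega
    · ext
      · rfl
      · simp only; omega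
  refine (Sur.transfer hcard (fun κ v h => ?_) hT2).mono (?_ : (↑S1 : Set (ℤ × ℤ)) ⊆ S)
  · refine Emp_flat0 ?_ h
    intro a b hb k hk
    rw [mem_coe]
    simp only [S2, mem_biUnion, mem_image, mem_range]
    have hne : b.Nonempty := card_pos.1 (by omega)
    obtain ⟨b0, hb0⟩ := hne
    have h5 := (hS1 a b0).1 (mem_coe.1 (hb b0 hb0))
    refine ⟨a, h5.1, k, ?_, rfl⟩
    have h6 : b.card ≤ (C a).card := card_le_card (by
      intro b' hb'
      exact ((hS1 a b').1 (mem_coe.1 (hb b' hb'))).2)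
    omega
  · rintro ⟨a, b⟩ hab
    exact hC a b ((hS1 a b).1 (mem_coe.1 hab)).2

/-- the flattening lemma for a general primitive covector `(x, y)`: the fibres contain long
intervals -/
theorem Sur_flat {S S' : Set (ℤ × ℤ)} (x y u v : ℤ) (hdet : x * u + y * v = 1)
    (hS : ∀ p ∈ S', 0 ≤ p.2 ∧ ∃ s0 : ℤ, ∀ s : ℤ, s0 ≤ s → s ≤ s0 + p.2 →
      (u * p.1 - y * s, v * p.1 + x * s) ∈ S) (h : Sur w S') : Sur w S := by
  classical
  have h1 : Sur w {m : ℤ × ℤ | (u * m.1 - y * m.2, v * m.1 + x * m.2) ∈ S} := by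
    refine Sur_flat0 ?_ h
    intro p hp
    obtain ⟨h5, s0, h6⟩ := hS p hp
    refine ⟨h5, Finset.Icc s0 (s0 + p.2), ?_, ?_⟩
    · rw [Int.card_Icc]
      omega
    · intro b hb
      rw [Finset.mem_Icc] at hb
      exact h6 b hb.1 hb.2
  refine h1.comap x y (-v) u 0 0 (by rw [show x * u - y * -v = x * u + y * v by ring, hdet]; exact one_ne_zero) ?_
  intro m' hm'
  refine ⟨(u * m'.1 - y * m'.2, v * m'.1 + x * m'.2), hm', ?_⟩
  ext
  · simp only; linear_combination m'.1 * hdet
  · simp only; linear_combination m'.2 * hdet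

/-- interior lattice points of the triangle with base from `α` to `β` on the horizontal axis and
sides `x = α + μ y`, `x = β - ν y` -/
def RegO (α β μ ν : ℝ) : Set (ℤ × ℤ) :=
  {m | 0 < m.2 ∧ α + μ * (m.2 : ℝ) < (m.1 : ℝ) ∧ (m.1 : ℝ) < β - ν * (m.2 : ℝ)}

theorem Sur_mirror {α β μ ν : ℝ} (h : Sur w (RegO (-β) (-α) ν μ)) : Sur w (RegO α β μ ν) := by
  refine h.comap (-1) 0 0 1 0 0 (by norm_num) ?_
  rintro ⟨a, b⟩ ⟨h1, h2, h3⟩
  simp only at h1 h2 h3
  refine ⟨(-a, b), ⟨h1, ?_, ?_⟩, ?_⟩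
  · simp only; push_cast; linarith
  · simp only; push_cast; linarith
  · ext <;> simp

theorem Sur_shear {α β μ ν : ℝ} (k : ℤ) (h : Sur w (RegO α β (μ + k) (ν - k))) :
    Sur w (RegO α β μ ν) := by
  refine h.comap 1 k 0 1 0 0 (by norm_num) ?_
  rintro ⟨a, b⟩ ⟨h1, h2, h3⟩
  simp only at h1 h2 h3
  refine ⟨(a - k * b, b), ⟨h1, ?_, ?_⟩, ?_⟩
  · simp only; push_cast; linarith
  · simp only; push_cast; linarith
  · ext <;> simp

/-- the top vertex takes the largest value -/
theorem Sur_regA {α β μ ν : ℝ} (x y u v : ℤ) (hdet : x * u + y * v = 1) (hx : 0 ≤ x)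
    (h1 : 0 ≤ x * μ + y) (h2 : x * ν ≤ y) (hn : 0 < μ + ν) {α' β' μ' ν' : ℝ}
    (hα : α' = x * α) (hβ : β' * (μ + ν) = -(y - x * ν) * α + (y + x * μ) * β)
    (hμ : μ' = x * (x * μ + y)) (hν : ν' * (μ + ν) = (y - x * ν) * (y + x * μ))
    (h : Sur w (RegO α' β' μ' ν')) : Sur w (RegO α β μ ν) := by
  have hx' : (0 : ℝ) ≤ x := by exact_mod_cast hx
  have hdR : (x : ℝ) * u + y * v = 1 := by exact_mod_cast hdet
  -- shift the region down by one
  have hsh : Sur w {p : ℤ × ℤ | 0 ≤ p.2 ∧ (p.1, p.2 + 1) ∈ RegO α' β' μ' ν'} := by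
    refine h.shift 0 1 ?_
    rintro ⟨a, b⟩ hab
    have h3 := hab.1
    simp only at h3
    refine ⟨by simp only; omega, ?_⟩
    simpa using hab
  refine Sur_flat x y u v hdet ?_ hsh
  rintro ⟨c, k⟩ ⟨hk, h3, h4, h5⟩
  simp only at hk h3 h4 h5
  refine ⟨hk, ?_⟩
  simp only
  push_cast at h4 h5
  have hk' : (0 : ℝ) ≤ k := by exact_mod_cast hk
  -- the two lower conditions
  let P : ℤ → Prop := fun s => 0 < (v : ℝ) * c + x * s ∧ 0 < β - ν * (v * c + x * s) - (u * c - y * s)
  have hyx : (0 : ℝ) ≤ y - x * ν := by linarith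
  have hPmono : ∀ s s' : ℤ, s ≤ s' → P s → P s' := by
    rintro s s' hs ⟨g1, g2⟩
    have hs' : (s : ℝ) ≤ s' := by exact_mod_cast hs
    have q1 : 0 ≤ (x : ℝ) * (s' - s) := mul_nonneg hx' (by linarith)
    have q2 : 0 ≤ ((y : ℝ) - x * ν) * (s' - s) := mul_nonneg hyx (by linarith)
    exact ⟨by linarith, by linarith⟩
  have hxy0 : 0 < (x : ℝ) ∨ 0 < (y : ℝ) - x * ν := by
    rcases hx'.lt_or_eq with hx0 | hx0
    · exact Or.inl hx0
    · right
      have hx1 : x = 0 := by exact_mod_cast hx0.symm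
      subst hx1
      have hy0 : (y : ℝ) ≠ 0 := by
        intro hy
        rw [hy] at hdR
        simp at hdR
      have : (0 : ℝ) ≤ y := by simpa using hyx
      simp only [Int.cast_zero, zero_mul, sub_zero]
      exact lt_of_le_of_ne this hy0.symm
  -- failure of one of the conditions at `s` gives the upper bound for `s + k + 1`
  have hU : ∀ s : ℤ, ¬ P s → 0 < u * c - α - μ * (v * c) - (x * μ + y) * (s + (k + 1)) := by
    intro s hs
    have hs' : (v : ℝ) * c + x * s ≤ 0 ∨ β - ν * (v * c + x * s) - (u * c - y * s) ≤ 0 := by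
      by_contra hcon
      push Not at hcon
      exact hs hcon
    rcases hs' with hs' | hs'
    · have hx0 : 0 < (x : ℝ) := by
        rcases hx'.lt_or_eq with hx0 | hx0
        · exact hx0
        · exfalso
          rw [← hx0] at hs' hdR hα hμ
          have e1 : (y : ℝ) * v = 1 := by linarith
          have hx1 : x = 0 := by exact_mod_cast hx0.symm
          subst hx1
          have hy0 : 0 ≤ (y : ℝ) := by simpa using hyx
          have hy1 : 0 ≤ y := by exact_mod_cast hy0
          have e2 : y * v = 1 := by exact_mod_cast e1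
          have e3 : y = 1 := Int.eq_one_of_mul_eq_one_right hy1 e2
          have e4 : v = 1 := by rw [e3] at e2; omega
          rw [e4] at hs'
          rw [hα, hμ] at h4
          simp at hs' h4
          linarith
      have e : x * (u * c - α - μ * (v * c) - (x * μ + y) * (s + (k + 1))) =
          (c - (x * α + x * (x * μ + y) * (k + 1))) - (x * μ + y) * (v * c + x * s) := by
        linear_combination (-(c : ℝ)) * hdR + 2 * (c : ℝ) * hdR - (c : ℝ) * hdR + (c : ℝ) * hdR
      have p1 : (x * μ + y) * (v * c + x * s) ≤ 0 := mul_nonpos_of_nonneg_of_nonpos h1 hs'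
      have p2 : 0 < (c : ℝ) - (x * α + x * (x * μ + y) * (k + 1)) := by
        rw [← hα, ← hμ]; linarith
      have p3 : 0 < (x : ℝ) * (u * c - α - μ * (v * c) - (x * μ + y) * (s + (k + 1))) := by
        rw [e]; linarith
      exact ppos p3 hx'
    · have hy0 : 0 < (y : ℝ) - x * ν := by
        rcases hyx.lt_or_eq with hy0 | hy0
        · exact hy0
        · exfalso
          have hx0 : 0 < (x : ℝ) := by
            rcases hxy0 with h | h
            · exact h
            · linarith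
          have e1 : (y : ℝ) = x * ν := by linarith
          -- then the second condition does not depend on `s`
          have e2 : x * (β - ν * (v * c + x * s) - (u * c - y * s)) = x * β - c := by
            have : (x : ℝ) * (u + ν * v) = 1 := by rw [← hdR, e1]; ring
            linear_combination (-(c : ℝ)) * this + x * s * e1
          have e3 : β' = x * β := by
            have : β' * (μ + ν) = x * β * (μ + ν) := by
              rw [hβ, e1]; ring
            exact mul_right_cancel₀ hn.ne' this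
          have e4 : ν' = 0 := by
            have : ν' * (μ + ν) = 0 * (μ + ν) := by rw [hν, e1]; ring
            exact mul_right_cancel₀ hn.ne' this
          rw [e3, e4] at h5
          have e5 : 0 < x * (β - ν * (v * c + x * s) - (u * c - y * s)) := by rw [e2]; linarith
          have e6 := ppos e5 hx'
          linarith
      have e : (y - x * ν) * (u * c - α - μ * (v * c) - (x * μ + y) * (s + (k + 1))) =
          (μ + ν) * (β' - ν' * (k + 1) - c) -
            (x * μ + y) * (β - ν * (v * c + x * s) - (u * c - y * s)) := by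
        linear_combination (-1) * hβ + (k + 1) * hν - (c : ℝ) * (μ + ν) * hdR
      have p1 : (x * μ + y) * (β - ν * (v * c + x * s) - (u * c - y * s)) ≤ 0 :=
        mul_nonpos_of_nonneg_of_nonpos h1 hs'
      have p2 : 0 < (μ + ν) * (β' - ν' * (k + 1) - c) := mul_pos hn (by linarith)
      have p3 : 0 < (y - x * ν) * (u * c - α - μ * (v * c) - (x * μ + y) * (s + (k + 1))) := by
        rw [e]; linarith
      exact ppos p3 hyx
  -- the least `s` with both conditions
  obtain ⟨s0, hs0, hs1⟩ : ∃ s0 : ℤ, P s0 ∧ ¬ P (s0 - 1) := by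
    have hbdd : ∃ b : ℤ, ∀ z : ℤ, P z → b ≤ z := by
      rcases hxy0 with hx0 | hy0
      · refine ⟨⌊-(v * c : ℝ) / x⌋, fun z hz => ?_⟩
        have : -(v * c : ℝ) / x < z := by
          rw [div_lt_iff₀ hx0]
          have := hz.1
          linarith
        exact_mod_cast (Int.floor_le _).trans this.le
      · refine ⟨⌊((u + ν * v) * c - β : ℝ) / (y - x * ν)⌋, fun z hz => ?_⟩
        have : ((u + ν * v) * c - β : ℝ) / (y - x * ν) < z := by
          rw [div_lt_iff₀ hy0]
          have := hz.2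
          linarith
        exact_mod_cast (Int.floor_le _).trans this.le
    have hinh : ∃ z : ℤ, P z := by
      by_contra hcon
      push Not at hcon
      -- if no `s` satisfies `P`, the upper condition holds for all `s`, a contradiction
      have hxy1 : 0 < x * μ + y := by
        rcases h1.lt_or_eq with h | h
        · exact h
        · exfalso
          have e1 : (y : ℝ) = -(x * μ) := by linarith
          have e2 : 0 ≤ -(x : ℝ) * (μ + ν) := by
            have : (y : ℝ) - x * ν = -(x : ℝ) * (μ + ν) := by rw [e1]; ring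
            rw [← this]; exact hyx
          have e3 : (x : ℝ) * (μ + ν) ≤ 0 := by linarith
          have e4 : (x : ℝ) ≤ 0 := nonpos_of_mul_nonpos_left e3 hn
          have e5 : (x : ℝ) = 0 := le_antisymm e4 hx'
          rw [e5] at e1 hdR
          rw [e1] at hdR
          simp at hdR
      obtain ⟨s, hs⟩ := exists_int_gt ((u * c - α - μ * (v * c)) / (x * μ + y))
      rw [div_lt_iff₀ hxy1] at hs
      have h6 := hU s (hcon s)
      have h7 : 0 ≤ (x * μ + y) * (k + 1) := mul_nonneg h1 (by linarith)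
      linarith
    obtain ⟨s0, hs0, hmin⟩ := Int.exists_least_of_bdd hbdd hinh
    exact ⟨s0, hs0, fun h => by have := hmin _ h; omega⟩
  have h6 := hU _ hs1
  refine ⟨s0, fun s hs hs' => ?_⟩
  obtain ⟨g1, g2⟩ := hPmono s0 s hs hs0
  have hsR : (s : ℝ) ≤ s0 + k := by exact_mod_cast hs'
  refine ⟨?_, ?_, ?_⟩
  · simp only
    exact_mod_cast g1
  · simp only
    push_cast at h6 ⊢
    have q1 : 0 ≤ (x * μ + y) * (s0 + k - s) := mul_nonneg h1 (by linarith)
    linarith
  · simp only
    push_cast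
    linarith

/-- the top vertex takes the middle value -/
theorem Sur_regC {α β μ ν : ℝ} (x y u v : ℤ) (hdet : x * u + y * v = 1) (hx : 0 ≤ x)
    (h1 : 0 ≤ x * μ + y) (h2 : (y : ℝ) ≤ x * ν) {α' β' μ' ν' : ℝ}
    (hα : α' = x * α) (hβ : β' = x * β)
    (hμ : μ' = x * (x * μ + y)) (hν : ν' = x * (x * ν - y))
    (h : Sur w (RegO α' β' μ' ν')) : Sur w (RegO α β μ ν) := by
  have hx' : (0 : ℝ) ≤ x := by exact_mod_cast hx
  have hdR : (x : ℝ) * u + y * v = 1 := by exact_mod_cast hdet
  have hx0 : 0 < (x : ℝ) := by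
    rcases hx'.lt_or_eq with hx0 | hx0
    · exact hx0
    · exfalso
      rw [← hx0] at h1 h2 hdR
      have : (y : ℝ) = 0 := by
        apply le_antisymm
        · simpa using h2
        · simpa using h1
      rw [this] at hdR
      simp at hdR
  have hsh : Sur w {p : ℤ × ℤ | 0 ≤ p.2 ∧ (p.1, p.2 + 1) ∈ RegO α' β' μ' ν'} := by
    refine h.shift 0 1 ?_
    rintro ⟨a, b⟩ hab
    have h3 := hab.1
    simp only at h3
    refine ⟨by simp only; omega, ?_⟩
    simpa using hab
  refine Sur_flat x y u v hdet ?_ hsh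
  rintro ⟨c, k⟩ ⟨hk, h3, h4, h5⟩
  simp only at hk h3 h4 h5
  refine ⟨hk, ?_⟩
  simp only
  push_cast at h4 h5
  have hk' : (0 : ℝ) ≤ k := by exact_mod_cast hk
  obtain ⟨s0, hs0, hs1⟩ : ∃ s0 : ℤ, 0 < (v : ℝ) * c + x * s0 ∧ (v : ℝ) * c + x * (s0 - 1) ≤ 0 := by
    refine ⟨⌊-(v * c : ℝ) / x⌋ + 1, ?_, ?_⟩
    · have := Int.lt_floor_add_one (-(v * c : ℝ) / x)
      rw [div_lt_iff₀ hx0] at this
      push_cast
      linarith
    · have := Int.floor_le (-(v * c : ℝ) / x)
      rw [le_div_iff₀ hx0] at this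
      push_cast
      linarith
  have hyx : (0 : ℝ) ≤ x * ν - y := by linarith
  refine ⟨s0, fun s hs hs' => ?_⟩
  have hsR : (s : ℝ) ≤ s0 + k := by exact_mod_cast hs'
  have hsR' : (s0 : ℝ) ≤ s := by exact_mod_cast hs
  have g1 : 0 < (v : ℝ) * c + x * s := by
    have : 0 ≤ (x : ℝ) * (s - s0) := mul_nonneg hx' (by linarith)
    linarith
  refine ⟨?_, ?_, ?_⟩
  · simp only
    exact_mod_cast g1
  · simp only
    push_cast
    have e : x * ((u * c - y * s) - (α + μ * (v * c + x * s))) =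
        (c - (x * α + x * (x * μ + y) * (k + 1))) - (x * μ + y) * (v * c + x * (s0 - 1)) +
          x * ((x * μ + y) * (s0 + k - s)) := by
      linear_combination (c : ℝ) * hdR
    have p1 : (x * μ + y) * (v * c + x * (s0 - 1)) ≤ 0 := mul_nonpos_of_nonneg_of_nonpos h1 hs1
    have p2 : 0 < (c : ℝ) - (x * α + x * (x * μ + y) * (k + 1)) := by
      rw [← hα, ← hμ]; linarith
    have p3 : 0 ≤ x * ((x * μ + y) * (s0 + k - s)) :=
      mul_nonneg hx' (mul_nonneg h1 (by linarith))
    have p4 : 0 < x * ((u * c - y * s) - (α + μ * (v * c + x * s))) := by rw [e]; linarith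
    have := ppos p4 hx'
    linarith
  · simp only
    push_cast
    have e : x * ((β - ν * (v * c + x * s)) - (u * c - y * s)) =
        (x * β - x * (x * ν - y) * (k + 1) - c) - (x * ν - y) * (v * c + x * (s0 - 1)) +
          x * ((x * ν - y) * (s0 + k - s)) := by
      linear_combination (-(c : ℝ)) * hdR
    have p1 : (x * ν - y) * (v * c + x * (s0 - 1)) ≤ 0 := mul_nonpos_of_nonneg_of_nonpos hyx hs1
    have p2 : 0 < x * β - x * (x * ν - y) * (k + 1) - c := by
      rw [← hβ, ← hν]; linarith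
    have p3 : 0 ≤ x * ((x * ν - y) * (s0 + k - s)) :=
      mul_nonneg hx' (mul_nonneg hyx (by linarith))
    have p4 : 0 < x * ((β - ν * (v * c + x * s)) - (u * c - y * s)) := by rw [e]; linarith
    have := ppos p4 hx'
    linarith

end Pool.Agent.TH603.Sur
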